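import Pool.Agent.R594.Sel.Fan

/-!
# `ℚ`-selective spaces which are not `C`-selective give countable Frechet `α₁`-spaces which are
not first countable
-/

open Set Filter Topology

namespace Pool.Agent.R594.Sel

universe u

/-- the ideal of a family of sets at a point -/
def Idl {X : Type u} [TopologicalSpace X] {D : Type} (a : X) (C : D → Set X) : Set (Set D) :=
  {E | ∃ U, IsOpen U ∧ a ∈ U ∧ ∀ d ∈ E, ¬ (C d ∩ U).Nonempty}

/-- the ideal is countably generated -/
def CountGen {X : Type u} [TopologicalSpace X] {D : Type} (a : X) (C : D → Set X) : Prop :=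
  ∃ E : ℕ → Set D, (∀ k, E k ∈ Idl a C) ∧ ∀ E' ∈ Idl a C, ∃ k, E' ⊆ E k

theorem idl_mono {X : Type u} [TopologicalSpace X] {D : Type} {a : X} {C : D → Set X}
    {E E' : Set D} (h : E' ∈ Idl a C) (hE : E ⊆ E') : E ∈ Idl a C := by
  obtain ⟨U, hU, haU, h⟩ := h
  exact ⟨U, hU, haU, fun d hd => h d (hE hd)⟩

theorem idl_union {X : Type u} [TopologicalSpace X] {D : Type} {a : X} {C : D → Set X}
    {E E' : Set D} (h : E ∈ Idl a C) (h' : E' ∈ Idl a C) : E ∪ E' ∈ Idl a C := by
  obtain ⟨U, hU, haU, h⟩ := h
  obtain ⟨U', hU', haU', h'⟩ := h'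
  refine ⟨U ∩ U', hU.inter hU', ⟨haU, haU'⟩, ?_⟩
  rintro d (hd | hd) ⟨z, hz1, hz2⟩
  · exact h d hd ⟨z, hz1, hz2.1⟩
  · exact h' d hd ⟨z, hz1, hz2.2⟩

theorem idl_finite {X : Type u} [TopologicalSpace X] {D : Type} {a : X} {C : D → Set X}
    (hC : ∀ d, IsClosed (C d)) (ha : ∀ d, a ∉ C d) {E : Set D} (hE : E.Finite) :
    E ∈ Idl a C := by
  induction E, hE using Set.Finite.induction_on with
  | empty => exact ⟨univ, isOpen_univ, mem_univ a, fun d hd => absurd hd (notMem_empty d)⟩
  | @insert d s _ _ ih =>
    rw [insert_eq]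
    refine idl_union ⟨(C d)ᶜ, (hC d).isOpen_compl, ha d, ?_⟩ ih
    rintro _ rfl ⟨z, hz1, hz2⟩
    exact hz2 hz1

theorem exceptional_mem {X : Type u} [TopologicalSpace X] {D : Type} {a : X} {C : D → Set X}
    {U : Set X} (hU : IsOpen U) (haU : a ∈ U) : {d | ¬ (C d ∩ U).Nonempty} ∈ Idl a C :=
  ⟨U, hU, haU, fun _ hd => hd⟩

/-- If all the ideals are countably generated then `ℚ`-selectivity implies `C`-selectivity. -/
theorem cSelective_of {X : Type u} [TopologicalSpace X] [T1Space X] (hQ : Selective ℚ X)
    (h : ∀ (D : Type) [Countable D] (a : X) (C : D → Set X), (∀ d, (C d).Nonempty) →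
      (∀ d, IsClosed (C d)) → (∀ d, a ∉ C d) → CountGen a C) : CSelective X := by
  classical
  intro Y _ _ _ _ φ hne hcl hlsc
  -- local selections
  have h1 : ∀ (y : Y) (a : X), a ∈ φ y → ∃ c : Y → X, (∀ y', c y' ∈ φ y') ∧
      ∀ U, IsOpen U → a ∈ U → ∀ᶠ y' in 𝓝 y, c y' ∈ U := by
    intro y a ha
    let D : Type := {y' : Y // a ∉ φ y'}
    let C : D → Set X := fun d => φ d.1
    obtain ⟨E, hE1, hE2⟩ := h D a C (fun d => hne d.1) (fun d => hcl d.1) (fun d => d.2)
    have hlev : ∀ d : D, ∃ k, d ∈ E k := by
      intro d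
      obtain ⟨k, hk⟩ := hE2 {d} (idl_finite (fun d => hcl d.1) (fun d => d.2) (finite_singleton d))
      exact ⟨k, hk rfl⟩
    obtain ⟨c, hc1, hc2⟩ := fan hQ a C (fun d => hne d.1) (fun d => hcl d.1)
      (fun d => Nat.find (hlev d)) (by
        intro U hU haU
        obtain ⟨k, hk⟩ := hE2 _ (exceptional_mem (C := C) hU haU)
        refine ⟨k + 1, fun d hd => ?_⟩
        by_contra hcon
        have := Nat.find_min' (hlev d) (hk hcon)
        omega)
    refine ⟨fun y' => if hy : a ∉ φ y' then c ⟨y', hy⟩ else a, fun y' => ?_, fun U hU haU => ?_⟩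
    · by_cases hy : a ∉ φ y'
      · show dite _ _ _ ∈ _
        rw [dif_pos hy]
        exact hc1 ⟨y', hy⟩
      · show dite _ _ _ ∈ _
        rw [dif_neg hy]
        exact not_not.1 hy
    · obtain ⟨N, hN⟩ := hc2 U hU haU
      have hO : ∀ N : ℕ, ∀ᶠ y' in 𝓝 y, ∀ hy : a ∉ φ y', ∀ i < N, (⟨y', hy⟩ : D) ∉ E i := by
        intro N
        induction N with
        | zero => exact Eventually.of_forall fun y' hy i hi => absurd hi (by omega)
        | succ N ih =>
          obtain ⟨V, hV, haV, hVE⟩ := hE1 N
          filter_upwards [ih, (hlsc V hV).mem_nhds (show y ∈ {y | (φ y ∩ V).Nonempty} from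
            ⟨a, ha, haV⟩)] with y' hy' hy'' hy i hi
          rcases Nat.lt_succ_iff_lt_or_eq.1 hi with h | h
          · exact hy' hy i h
          · rw [h]
            exact fun hcon => hVE _ hcon hy''
      filter_upwards [hO N] with y' hy'
      by_cases hy : a ∉ φ y'
      · show dite _ _ _ ∈ _
        rw [dif_pos hy]
        apply hN
        by_contra hcon
        exact hy' hy _ (not_le.1 hcon) (Nat.find_spec (hlev ⟨y', hy⟩))
      · show dite _ _ _ ∈ _
        rw [dif_neg hy]
        exact haU
  choose! c hc1 hc2 using h1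
  choose p hp using hne
  -- closing off
  let F : Set X → Set X := fun A => A ∪ ⋃ y : Y, ⋃ y' : Y, (fun a => c y a y') '' A
  let A : ℕ → Set X := fun n => F^[n] (range p)
  have hA0 : A 0 = range p := rfl
  have hAs : ∀ n, A (n + 1) = F (A n) := fun n => Function.iterate_succ_apply' F n _
  have hAc : ∀ n, (A n).Countable := by
    intro n
    induction n with
    | zero => rw [hA0]; exact countable_range p
    | succ n ih =>
      rw [hAs]
      exact ih.union (countable_iUnion fun y => countable_iUnion fun y' => ih.image _)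
  let B : Set X := ⋃ n, A n
  have hBc : B.Countable := countable_iUnion hAc
  have hpB : ∀ y, p y ∈ B := fun y => mem_iUnion.2 ⟨0, mem_range_self y⟩
  have hcB : ∀ y y' a, a ∈ B → c y a y' ∈ B := by
    intro y y' a ha
    obtain ⟨n, hn⟩ := mem_iUnion.1 ha
    refine mem_iUnion.2 ⟨n + 1, ?_⟩
    rw [hAs]
    refine Or.inr ?_
    simp only [mem_iUnion]
    exact ⟨y, y', a, hn, rfl⟩
  -- first countability
  have hfc : FirstCountableTopology B := by
    refine ⟨fun ⟨x, hxB⟩ => ?_⟩
    by_cases hne' : (B \ {x}).Nonempty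
    · obtain ⟨e, he⟩ := (hBc.mono (sdiff_subset (t := {x}))).exists_eq_range hne'
      have hx : ∀ n, x ∉ ({e n} : Set X) := by
        intro n hn
        have : e n ∈ B \ {x} := by rw [he]; exact mem_range_self n
        exact this.2 (show e n = x from (show x = e n from hn).symm)
      obtain ⟨E, hE1, hE2⟩ := h ℕ x (fun n => {e n}) (fun n => singleton_nonempty _)
        (fun n => isClosed_singleton) hx
      have hbas : (𝓝 (⟨x, hxB⟩ : B)).HasBasis (fun _ : ℕ => True)
          (fun k => {z : B | ∀ n, (z : X) = e n → n ∉ E k}) := by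
        refine ⟨fun t => ?_⟩
        rw [mem_nhds_subtype]
        constructor
        · rintro ⟨u, hu, hut⟩
          obtain ⟨U, hUu, hU, hxU⟩ := mem_nhds_iff.1 hu
          obtain ⟨k, hk⟩ := hE2 _ (exceptional_mem (C := fun n => ({e n} : Set X)) hU hxU)
          refine ⟨k, trivial, ?_⟩
          intro z hz
          apply hut
          apply hUu
          show (z : X) ∈ U
          by_cases hzx : (z : X) = x
          · rw [hzx]; exact hxU
          · have : (z : X) ∈ range e := by rw [← he]; exact ⟨z.2, hzx⟩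
            obtain ⟨n, hn⟩ := this
            by_contra hcon
            refine hz n hn.symm (hk ?_)
            rintro ⟨w, hw1, hw2⟩
            rw [show w = e n from hw1, hn] at hw2
            exact hcon hw2
        · rintro ⟨k, -, hk⟩
          obtain ⟨V, hV, hxV, hVE⟩ := hE1 k
          refine ⟨V, hV.mem_nhds hxV, ?_⟩
          intro z hz
          apply hk
          intro n hn hnE
          refine hVE n hnE ⟨e n, rfl, ?_⟩
          rw [← hn]
          exact hz
      exact hbas.isCountablyGenerated
    · have hall : ∀ z : B, z = ⟨x, hxB⟩ := by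
        intro z
        by_contra hcon
        exact hne' ⟨z, z.2, fun h => hcon (Subtype.ext h)⟩
      have : 𝓝 (⟨x, hxB⟩ : B) = pure ⟨x, hxB⟩ := by
        have hopen : IsOpen ({⟨x, hxB⟩} : Set B) := by
          have : ({⟨x, hxB⟩} : Set B) = univ := by
            ext z
            simp [hall z]
          rw [this]
          exact isOpen_univ
        exact (isOpen_singleton_iff_nhds_eq_pure _).1 hopen
      rw [this]
      infer_instance
  -- the restricted map
  have hlscB : LSC (fun y => (Subtype.val ⁻¹' (φ y) : Set B)) := by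
    intro U hU
    obtain ⟨V, hV, rfl⟩ := hU
    rw [isOpen_iff_mem_nhds]
    rintro y ⟨⟨a, haB⟩, ha1, ha2⟩
    have ha1' : a ∈ φ y := ha1
    have ha2' : a ∈ V := ha2
    filter_upwards [hc2 y a ha1' V hV ha2'] with y' hy'
    exact ⟨⟨c y a y', hcB y y' a haB⟩, hc1 y a ha1' y', hy'⟩
  obtain ⟨f, hf1, hf2⟩ := michael (Y := Y) (A := B) (fun y => (Subtype.val ⁻¹' (φ y) : Set B))
    (fun y => ⟨⟨p y, hpB y⟩, hp y⟩) hlscB
  exact ⟨fun y => (f y : X), continuous_subtype_val.comp hf1, fun y => hf2 y⟩

/-- Arhangel'skii's property `α₁`: for every point `z` and all countably many countable sets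
`T n` which converge to `z` there is a countable set `S` which converges to `z` and contains all
but finitely many elements of each `T n`. A set converges to `z` if every neighbourhood of `z`
contains all but finitely many of its elements. -/
def AlphaOne (Z : Type u) [TopologicalSpace Z] : Prop :=
  ∀ (z : Z) (T : ℕ → Set Z), (∀ n, (T n).Countable ∧ ∀ U ∈ 𝓝 z, (T n \ U).Finite) →
    ∃ S : Set Z, S.Countable ∧ (∀ U ∈ 𝓝 z, (S \ U).Finite) ∧ ∀ n, (T n \ S).Finite

/-- the topology on `Option D` given by the ideal -/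
@[reducible] def itop {X : Type u} [TopologicalSpace X] {D : Type} (a : X) (C : D → Set X) :
    TopologicalSpace (Option D) where
  IsOpen W := none ∈ W → {d | some d ∉ W} ∈ Idl a C
  isOpen_univ := fun _ => ⟨univ, isOpen_univ, mem_univ a, fun d hd => absurd (mem_univ _) hd⟩
  isOpen_inter := by
    intro s t hs ht h
    refine idl_mono (idl_union (hs h.1) (ht h.2)) ?_
    intro d hd
    by_cases h' : some d ∈ s
    · exact Or.inr fun h'' => hd ⟨h', h''⟩
    · exact Or.inl h'
  isOpen_sUnion := by
    intro s hs h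
    obtain ⟨t, ht, hnt⟩ := h
    exact idl_mono (hs t ht hnt) fun d hd hdt => hd ⟨t, ht, hdt⟩

theorem exists_countable_space {X : Type u} [TopologicalSpace X] [T1Space X]
    (hQ : Selective ℚ X) (D : Type) [Countable D] (a : X) (C : D → Set X)
    (hne : ∀ d, (C d).Nonempty) (hcl : ∀ d, IsClosed (C d)) (ha : ∀ d, a ∉ C d)
    (hcg : ¬ CountGen a C) : ∃ (Z : Type) (_ : TopologicalSpace Z), T1Space Z ∧ RegularSpace Z ∧
      Countable Z ∧ FrechetUrysohnSpace Z ∧ AlphaOne Z ∧ ¬ FirstCountableTopology Z := by
  classical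
  letI ttop : TopologicalSpace (Option D) := itop a C
  have hopen : ∀ W : Set (Option D), IsOpen W ↔
    (none ∈ W → {d | some d ∉ W} ∈ Idl a C) := fun W => Iff.rfl
  have hsome : ∀ W : Set (Option D), none ∉ W → IsOpen W := by
    intro W hW
    rw [hopen]
    exact fun h => absurd h hW
  have hnhds : ∀ W ∈ 𝓝 (none : Option D), {d | some d ∉ W} ∈ Idl a C := by
    intro W hW
    obtain ⟨V, hVW, hV, hnV⟩ := mem_nhds_iff.1 hW
    exact idl_mono ((hopen V).1 hV hnV) fun d hd hdV => hd (hVW hdV)
  have hidl : ∀ E ∈ Idl a C, {z : Option D | ∀ d, z = some d → d ∉ E} ∈ 𝓝 (none : Option D) := by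
    intro E hE
    apply IsOpen.mem_nhds
    · rw [hopen]
      intro _
      refine idl_mono hE fun d hd => ?_
      by_contra hcon
      refine hd fun d' hd' => ?_
      rw [← Option.some.inj hd']
      exact hcon
    · intro d hd
      exact absurd hd (by simp)
  have hT1 : T1Space (Option D) := by
    refine ⟨fun z => ⟨?_⟩⟩
    rw [hopen]
    intro hz
    cases z with
    | none => exact absurd rfl hz
    | some x =>
      refine idl_mono (idl_finite hcl ha (finite_singleton x)) fun d hd => ?_
      have : some d ∈ ({some x} : Set (Option D)) := not_not.1 hd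
      exact Option.some.inj this
  have hreg : RegularSpace (Option D) := by
    apply RegularSpace.of_exists_mem_nhds_isClosed_subset
    intro z s hs
    obtain ⟨t, hts, ht, hzt⟩ := mem_nhds_iff.1 hs
    cases z with
    | some x =>
      refine ⟨{some x}, ?_, isClosed_singleton, fun z hz => ?_⟩
      · have hq : IsOpen ({some x} : Set (Option D)) :=
          hsome _ (fun h => by simp at h)
        exact hq.mem_nhds rfl
      · rw [show z = some x from hz]
        exact hts hzt
    | none =>
      exact ⟨t, ht.mem_nhds hzt, ⟨hsome _ fun h => h hzt⟩, hts⟩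
  refine ⟨Option D, ttop, hT1, hreg, inferInstance, ⟨fun s => ?_⟩, ?_, ?_⟩
  · -- Frechet
    intro z hz
    by_cases hzs : z ∈ s
    · exact ⟨fun _ => z, fun _ => hzs, tendsto_const_nhds⟩
    cases z with
    | some x =>
      have hq : IsOpen ({some x} : Set (Option D)) := hsome _ (fun h => by simp at h)
      obtain ⟨w, hw1, hw2⟩ := mem_closure_iff.1 hz _ hq rfl
      rw [show w = some x from hw1] at hw2
      exact absurd hw2 hzs
    | none =>
      have hB : {d | some d ∈ s} ∉ Idl a C := by
        intro hB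
        obtain ⟨w, hw1, hw2⟩ := mem_closure_iff_nhds.1 hz _ (hidl _ hB)
        cases w with
        | none => exact hzs hw2
        | some d => exact hw1 d rfl hw2
      have hBne : {d | some d ∈ s}.Nonempty := by
        by_contra hcon
        rw [not_nonempty_iff_eq_empty] at hcon
        rw [hcon] at hB
        exact hB (idl_finite hcl ha finite_empty)
      obtain ⟨b, hb⟩ := (to_countable {d | some d ∈ s}).exists_eq_range hBne
      have hmeet : ∀ U, IsOpen U → a ∈ U → ∃ i, (C (b i) ∩ U).Nonempty := by
        intro U hU haU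
        by_contra hcon
        push Not at hcon
        apply hB
        refine ⟨U, hU, haU, fun d hd => ?_⟩
        have : d ∈ range b := by rw [← hb]; exact hd
        obtain ⟨i, rfl⟩ := this
        rw [not_nonempty_iff_eq_empty]
        exact hcon i
      obtain ⟨c, hc1, hc2⟩ := fan hQ (D := ℕ) a (fun n => ⋃ i ∈ Iic n, C (b i))
        (fun n => by
          obtain ⟨z, hz⟩ := hne (b 0)
          exact ⟨z, mem_biUnion (show 0 ∈ Iic n from Nat.zero_le n) hz⟩)
        (fun n => (finite_Iic n).isClosed_biUnion fun i _ => hcl (b i)) (fun n => n)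
        (by
          intro U hU haU
          obtain ⟨i, z, hz1, hz2⟩ := hmeet U hU haU
          exact ⟨i, fun n hn => ⟨z, mem_biUnion (show i ∈ Iic n from hn) hz1, hz2⟩⟩)
      have hi : ∀ n, ∃ i, c n ∈ C (b i) := by
        intro n
        obtain ⟨i, -, hi⟩ := mem_iUnion₂.1 (hc1 n)
        exact ⟨i, hi⟩
      choose i hi using hi
      refine ⟨fun n => some (b (i n)), fun n => ?_, ?_⟩
      · have : b (i n) ∈ {d | some d ∈ s} := by rw [hb]; exact mem_range_self _
        exact this
      · intro W hW
        obtain ⟨U, hU, haU, hUE⟩ := hnhds W hW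
        obtain ⟨N, hN⟩ := hc2 U hU haU
        rw [mem_map, mem_atTop_sets]
        refine ⟨N, fun n hn => ?_⟩
        by_contra hcon
        exact hUE (b (i n)) hcon ⟨c n, hi n, hN n hn⟩
  · -- alpha one
    intro z T hT
    cases z with
    | some x =>
      have hq : ({some x} : Set (Option D)) ∈ 𝓝 (some x) :=
        (hsome _ (fun h => by simp at h)).mem_nhds rfl
      refine ⟨∅, countable_empty, fun U _ => by simp, fun n => ?_⟩
      refine (((hT n).2 _ hq).union (finite_singleton (some x))).subset ?_
      rintro w ⟨hw, -⟩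
      by_cases h : w ∈ ({some x} : Set (Option D))
      · exact Or.inr h
      · exact Or.inl ⟨hw, h⟩
    | none =>
      have hTE : ∀ n, ∀ E ∈ Idl a C, {d | some d ∈ T n ∧ d ∈ E}.Finite := by
        intro n E hE
        refine Set.Finite.of_finite_image (f := some)
          (((hT n).2 _ (hidl E hE)).subset ?_) (Option.some_injective _).injOn
        rintro _ ⟨d, ⟨h1, h2⟩, rfl⟩
        exact ⟨h1, fun h => h d rfl h2⟩
      by_cases hfin : ∀ n, (T n).Finite
      · exact ⟨∅, countable_empty, fun U _ => by simp, fun n => (hfin n).subset sdiff_subset⟩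
      push Not at hfin
      obtain ⟨n0, hn0⟩ := hfin
      have hinf : {d | some d ∈ T n0}.Infinite := by
        intro hf
        apply hn0
        refine ((hf.image some).union (finite_singleton none)).subset ?_
        intro w hw
        cases w with
        | none => exact Or.inr rfl
        | some d => exact Or.inl ⟨d, hw, rfl⟩
      haveI := hinf.to_subtype
      let q : ℕ ↪ {d | some d ∈ T n0} := Infinite.natEmbedding _
      have hqE : ∀ E ∈ Idl a C, {n : ℕ | (q n : D) ∈ E}.Finite := by
        intro E hE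
        refine Set.Finite.of_finite_image (f := fun n => (q n : D))
          ((hTE n0 E hE).subset ?_) (Subtype.val_injective.comp q.injective).injOn
        rintro _ ⟨n, hn, rfl⟩
        exact ⟨(q n).2, hn⟩
      obtain ⟨code, hcode⟩ := exists_injective_nat (ℕ × D)
      let C' : ℕ × D → Set X := fun nd =>
        if some nd.2 ∈ T nd.1 then C nd.2 ∪ C (q nd.1) else univ
      have hC' : ∀ n d, some d ∈ T n → C' (n, d) = C d ∪ C (q n) := fun n d h => if_pos h
      have hexc : ∀ U, IsOpen U → a ∈ U → {nd | ¬ (C' nd ∩ U).Nonempty}.Finite := by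
        intro U hU haU
        have hE := exceptional_mem (C := C) hU haU
        have h1 := hqE _ hE
        have h2 : (⋃ n ∈ {n : ℕ | (q n : D) ∈ {d | ¬ (C d ∩ U).Nonempty}},
            (fun d => (n, d)) '' {d | some d ∈ T n ∧ d ∈ {d | ¬ (C d ∩ U).Nonempty}}).Finite :=
          h1.biUnion fun n _ => (hTE n _ hE).image _
        refine h2.subset ?_
        rintro ⟨n, d⟩ hnd
        have hT' : some d ∈ T n := by
          by_contra hcon
          apply hnd
          show (ite _ _ _ ∩ U).Nonempty
          rw [if_neg hcon, univ_inter]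
          exact ⟨a, haU⟩
        have hnd' : ¬ (C' (n, d) ∩ U).Nonempty := hnd
        rw [hC' n d hT'] at hnd'
        have hd : ¬ (C d ∩ U).Nonempty := fun ⟨z, hz1, hz2⟩ => hnd' ⟨z, Or.inl hz1, hz2⟩
        have hq' : ¬ (C (q n) ∩ U).Nonempty := fun ⟨z, hz1, hz2⟩ => hnd' ⟨z, Or.inr hz1, hz2⟩
        exact mem_biUnion (show n ∈ {n : ℕ | (q n : D) ∈ {d | ¬ (C d ∩ U).Nonempty}} from hq')
          ⟨d, ⟨hT', hd⟩, rfl⟩
      have hlev : ∀ G : Set (ℕ × D), G.Finite → ∃ N, ∀ nd, N ≤ code nd → nd ∉ G := by
        intro G hG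
        obtain ⟨b, hb⟩ := (hG.image code).bddAbove
        refine ⟨b + 1, fun nd h1 h2 => ?_⟩
        have := hb ⟨nd, h2, rfl⟩
        omega
      obtain ⟨c, hc1, hc2⟩ := fan hQ a C'
        (fun nd => by
          by_cases h : some nd.2 ∈ T nd.1
          · obtain ⟨z, hz⟩ := hne nd.2
            rw [show C' nd = C nd.2 ∪ C (q nd.1) from if_pos h]
            exact ⟨z, Or.inl hz⟩
          · rw [show C' nd = univ from if_neg h]
            exact ⟨a, mem_univ a⟩)
        (fun nd => by
          by_cases h : some nd.2 ∈ T nd.1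
          · rw [show C' nd = C nd.2 ∪ C (q nd.1) from if_pos h]
            exact (hcl _).union (hcl _)
          · rw [show C' nd = univ from if_neg h]
            exact isClosed_univ) code
        (by
          intro U hU haU
          obtain ⟨N, hN⟩ := hlev _ (hexc U hU haU)
          exact ⟨N, fun nd hnd => not_not.1 (hN nd hnd)⟩)
      have hcU : ∀ U, IsOpen U → a ∈ U → {nd | c nd ∉ U}.Finite := by
        intro U hU haU
        obtain ⟨N, hN⟩ := hc2 U hU haU
        refine Set.Finite.subset ((finite_Iio N).preimage hcode.injOn) fun nd hnd => ?_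
        show code nd < N
        by_contra hcon
        exact hnd (hN nd (not_lt.1 hcon))
      refine ⟨{z | ∃ n d, z = some d ∧ some d ∈ T n ∧ c (n, d) ∈ C d}, to_countable _,
        fun W hW => ?_, fun n => ?_⟩
      · obtain ⟨U, hU, haU, hUE⟩ := hnhds W hW
        refine ((hcU U hU haU).image fun nd => some nd.2).subset ?_
        rintro _ ⟨⟨n, d, rfl, h1, h2⟩, h3⟩
        refine ⟨(n, d), fun h4 => ?_, rfl⟩
        exact hUE d h3 ⟨c (n, d), h2, h4⟩
      · have h1 := hcU (C (q n))ᶜ (hcl _).isOpen_compl (ha _)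
        refine ((h1.image fun nd => some nd.2).union (finite_singleton none)).subset ?_
        rintro w ⟨hw1, hw2⟩
        cases w with
        | none => exact Or.inr rfl
        | some d =>
          refine Or.inl ⟨(n, d), fun h => ?_, rfl⟩
          have h3 := hc1 (n, d)
          rw [hC' n d hw1] at h3
          rcases h3 with h3 | h3
          · exact hw2 ⟨n, d, rfl, hw1, h3⟩
          · exact h h3
  · -- not first countable
    intro hfc
    obtain ⟨x, hx⟩ := (𝓝 (none : Option D)).exists_antitone_basis
    apply hcg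
    refine ⟨fun k => {d | some d ∉ x k}, fun k => hnhds _ (hx.1.mem_of_mem trivial),
      fun E hE => ?_⟩
    obtain ⟨k, -, hk⟩ := hx.1.mem_iff.1 (hidl E hE)
    exact ⟨k, fun d hd hdk => hk hdk d rfl hd⟩

theorem reduction {X : Type u} [TopologicalSpace X] [T1Space X] (hQ : Selective ℚ X)
    (hC : ¬ CSelective X) : ∃ (Z : Type) (_ : TopologicalSpace Z), T1Space Z ∧ RegularSpace Z ∧
      Countable Z ∧ FrechetUrysohnSpace Z ∧ AlphaOne Z ∧ ¬ FirstCountableTopology Z := by
  by_contra hcon
  refine hC (cSelective_of hQ fun D _ a C h1 h2 h3 => ?_)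
  by_contra h4
  exact hcon (exists_countable_space hQ D a C h1 h2 h3 h4)

end Pool.Agent.R594.Sel
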