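import Pool.Agent.R594.Sel.Defs

/-!
# Countable approximations of a filter on `ℕ × ℕ`

A condition is a decreasing sequence `F n` (the base of a filter) and an increasing sequence
`P n` (the frozen sets: the trace of the filter on a frozen set will not change).
-/

open Set Filter Topology

namespace Pool.Agent.R594.Sel

/-- the ground set of the filters -/
abbrev Om : Type := ℕ × ℕ

/-- the columns -/
def col (j : ℕ) : Set Om := {x | x.1 = j}

/-- conditions -/
structure Cnd : Type where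
  /-- base of the filter -/
  F : ℕ → Set Om
  /-- frozen sets -/
  P : ℕ → Set Om
  antiF : Antitone F
  monoP : Monotone P
  colF : ∀ n, ∀ x ∈ F n, n ≤ x.1
  ptP : ∀ x, ∃ m, x ∈ P m
  pos : ∀ n m, {j : ℕ | ((F n ∩ col j) \ P m).Infinite}.Infinite

/-- the order: `q` is stronger than `p` -/
instance : Preorder Cnd where
  le q p := (∀ n, ∃ m, q.F m ⊆ p.F n) ∧ (∀ n, ∃ m, p.P n ⊆ q.P m) ∧
    (∀ n m, ∃ l, p.F l ∩ p.P m ⊆ q.F n)
  le_refl p := ⟨fun n => ⟨n, subset_rfl⟩, fun n => ⟨n, subset_rfl⟩,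
    fun n _ => ⟨n, inter_subset_left⟩⟩
  le_trans r q p h h' := by
    refine ⟨fun n => ?_, fun n => ?_, fun n m => ?_⟩
    · obtain ⟨m, hm⟩ := h'.1 n
      obtain ⟨l, hl⟩ := h.1 m
      exact ⟨l, hl.trans hm⟩
    · obtain ⟨m, hm⟩ := h'.2.1 n
      obtain ⟨l, hl⟩ := h.2.1 m
      exact ⟨l, hm.trans hl⟩
    · obtain ⟨m', hm'⟩ := h'.2.1 m
      obtain ⟨l, hl⟩ := h.2.2 n m'
      obtain ⟨l', hl'⟩ := h'.2.2 l m
      exact ⟨l', fun x hx => hl ⟨hl' hx, hm' hx.2⟩⟩

theorem Cnd.le_def {p q : Cnd} : q ≤ p ↔ (∀ n, ∃ m, q.F m ⊆ p.F n) ∧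
    (∀ n, ∃ m, p.P n ⊆ q.P m) ∧ (∀ n m, ∃ l, p.F l ∩ p.P m ⊆ q.F n) := Iff.rfl

theorem Cnd.finite_sub (p : Cnd) {G : Set Om} (hG : G.Finite) : ∃ m, G ⊆ p.P m := by
  induction G, hG using Set.Finite.induction_on with
  | empty => exact ⟨0, empty_subset _⟩
  | @insert a s _ _ ih =>
    obtain ⟨m, hm⟩ := ih
    obtain ⟨m', hm'⟩ := p.ptP a
    refine ⟨max m m', insert_subset (p.monoP (le_max_right _ _) hm') ?_⟩
    exact hm.trans (p.monoP (le_max_left _ _))

theorem Cnd.finite_avoid (p : Cnd) {G : Set Om} (hG : G.Finite) :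
    ∃ l, ∀ l' ≥ l, Disjoint (p.F l') G := by
  obtain ⟨b, hb⟩ := (hG.image Prod.fst).bddAbove
  refine ⟨b + 1, fun l' hl' => disjoint_left.2 fun x hx hxG => ?_⟩
  have h1 := p.colF l' x hx
  have h2 := hb ⟨x, hxG, rfl⟩
  omega

/-- lower bounds of decreasing sequences -/
theorem Cnd.exists_lower (p : ℕ → Cnd) (hp : Antitone p) : ∃ q, ∀ n, q ≤ p n := by
  classical
  have key1 : ∀ n k, ∃ l, (p k).F l ⊆ ⋂ i ≤ k, (p i).F n := by
    intro n k
    have : ∀ i, ∃ l, i ≤ k → (p k).F l ⊆ (p i).F n := by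
      intro i
      by_cases hi : i ≤ k
      · obtain ⟨l, hl⟩ := (hp hi).1 n
        exact ⟨l, fun _ => hl⟩
      · exact ⟨0, fun h => absurd h hi⟩
    choose l hl using this
    refine ⟨(Finset.range (k + 1)).sup l, ?_⟩
    refine subset_iInter₂ fun i hi => ?_
    refine ((p k).antiF (Finset.le_sup (f := l) (Finset.mem_range.2 (by omega)))).trans (hl i hi)
  have key2 : ∀ n k, ∃ l, (⋃ i ≤ k, (p i).P n) ⊆ (p k).P l := by
    intro n k
    have : ∀ i, ∃ l, i ≤ k → (p i).P n ⊆ (p k).P l := by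
      intro i
      by_cases hi : i ≤ k
      · obtain ⟨l, hl⟩ := (hp hi).2.1 n
        exact ⟨l, fun _ => hl⟩
      · exact ⟨0, fun h => absurd h hi⟩
    choose l hl using this
    refine ⟨(Finset.range (k + 1)).sup l, ?_⟩
    refine iUnion₂_subset fun i hi => ?_
    exact (hl i hi).trans ((p k).monoP (Finset.le_sup (f := l) (Finset.mem_range.2 (by omega))))
  let F : ℕ → Set Om := fun n => ⋂ i ≤ n, (p i).F n
  let P : ℕ → Set Om := fun n => ⋃ i ≤ n, (p i).P n
  have hF : Antitone F := by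
    intro a b hab x hx
    simp only [F, mem_iInter] at hx ⊢
    intro i hi
    exact (p i).antiF hab (hx i (hi.trans hab))
  have hP : Monotone P := by
    intro a b hab x hx
    simp only [P, mem_iUnion] at hx ⊢
    obtain ⟨i, hi, hx⟩ := hx
    exact ⟨i, hi.trans hab, (p i).monoP hab hx⟩
  have hFk : ∀ n k, n ≤ k → F k ⊆ (p n).F k := fun n k hnk => iInter₂_subset n hnk
  have hPk : ∀ n k, n ≤ k → (p n).P k ⊆ P k := fun n k hnk =>
    subset_iUnion₂ (s := fun i (_ : i ≤ k) => (p i).P k) n hnk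
  let q : Cnd :=
    { F := F
      P := P
      antiF := hF
      monoP := hP
      colF := fun n x hx => (p 0).colF n x (hFk 0 n (Nat.zero_le n) hx)
      ptP := fun x => by
        obtain ⟨m, hm⟩ := (p 0).ptP x
        exact ⟨m, hPk 0 m (Nat.zero_le m) hm⟩
      pos := fun n m => by
        let k := max n m
        obtain ⟨l, hl⟩ := key1 k k
        obtain ⟨l', hl'⟩ := key2 k k
        refine ((p k).pos l l').mono fun j hj => ?_
        refine Set.Infinite.mono ?_ hj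
        rintro x ⟨⟨hx1, hx2⟩, hx3⟩
        refine ⟨⟨hF (le_max_left n m) (hl hx1), hx2⟩, fun h => hx3 (hl' ?_)⟩
        exact hP (le_max_right n m) h }
  refine ⟨q, fun i => ⟨fun n => ⟨max n i, ?_⟩, fun n => ⟨max n i, ?_⟩, fun n m => ?_⟩⟩
  · exact (hFk i _ (le_max_right _ _)).trans ((p i).antiF (le_max_left _ _))
  · exact ((p i).monoP (le_max_left _ _)).trans (hPk i _ (le_max_right _ _))
  · have : ∀ j, ∃ l, (p i).F l ∩ (p i).P m ⊆ (p j).F n := by
      intro j
      rcases le_total j i with h | h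
      · obtain ⟨l, hl⟩ := (hp h).1 n
        exact ⟨l, inter_subset_left.trans hl⟩
      · exact (hp h).2.2 n m
    choose l hl using this
    refine ⟨(Finset.range (n + 1)).sup l, fun x hx => ?_⟩
    show x ∈ ⋂ j ≤ n, (p j).F n
    simp only [mem_iInter]
    intro j hj
    exact hl j ⟨(p i).antiF (Finset.le_sup (f := l) (Finset.mem_range.2 (by omega))) hx.1, hx.2⟩

/-- the initial condition -/
theorem Cnd.nonempty : Nonempty Cnd := by
  refine ⟨⟨fun n => {x | n ≤ x.1}, fun n => {x | x.1 < n ∧ x.2 < n}, ?_, ?_, ?_, ?_, ?_⟩⟩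
  · intro a b hab x hx
    exact hab.trans hx
  · intro a b hab x hx
    exact ⟨hx.1.trans_le hab, hx.2.trans_le hab⟩
  · intro n x hx
    exact hx
  · intro x
    exact ⟨max x.1 x.2 + 1, Nat.lt_succ_of_le (le_max_left _ _),
      Nat.lt_succ_of_le (le_max_right _ _)⟩
  · intro n m
    refine (Set.infinite_of_injective_forall_mem (f := fun i => n + m + i)
      (fun a b h => by simpa using h) fun i => ?_)
    refine (Set.infinite_of_injective_forall_mem (f := fun k => ((n + m + i, k) : Om))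
      (fun a b h => (Prod.ext_iff.1 h).2) fun k => ?_)
    refine ⟨⟨?_, rfl⟩, fun h => ?_⟩
    · show n ≤ n + m + i
      omega
    · have : n + m + i < m := h.1
      omega

/-- removing a small set from the filter -/
theorem Cnd.remove (p : Cnd) (J : Set Om) (hJ : ∀ m, (J ∩ p.P m).Finite)
    (hpos : ∀ n m, {j : ℕ | (((p.F n \ J) ∩ col j) \ p.P m).Infinite}.Infinite) :
    ∃ q ≤ p, (∀ n, q.F n = p.F n \ J) ∧ ∀ n, q.P n = p.P n := by
  let q : Cnd :=
    { F := fun n => p.F n \ J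
      P := p.P
      antiF := fun a b hab x hx => ⟨p.antiF hab hx.1, hx.2⟩
      monoP := p.monoP
      colF := fun n x hx => p.colF n x hx.1
      ptP := p.ptP
      pos := hpos }
  refine ⟨q, ⟨fun n => ⟨n, sdiff_subset⟩, fun n => ⟨n, subset_rfl⟩, fun n m => ?_⟩,
    fun n => rfl, fun n => rfl⟩
  obtain ⟨l, hl⟩ := p.finite_avoid (hJ m)
  refine ⟨max l n, fun x hx => ⟨p.antiF (le_max_right _ _) hx.1, fun hxJ => ?_⟩⟩
  exact disjoint_left.1 (hl _ (le_max_left _ _)) hx.1 ⟨hxJ, hx.2⟩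

/-- the filter can be enlarged -/
theorem Cnd.enlarge (p : Cnd) : ∃ q ≤ p, ∀ n, ¬ p.F n ⊆ q.F 0 := by
  classical
  have h1 : ∀ (n b : ℕ), ∃ x, x ∈ p.F n ∧ x ∉ p.P n ∧ b < x.1 := by
    intro n b
    obtain ⟨j, hj, hjb⟩ := (p.pos n n).exists_gt b
    obtain ⟨x, hx⟩ := Set.Infinite.nonempty hj
    refine ⟨x, hx.1.1, hx.2, ?_⟩
    have : x.1 = j := hx.1.2
    omega
  choose f hf1 hf2 hf3 using h1
  let x : ℕ → Om := fun n => Nat.rec (f 0 0) (fun n y => f (n + 1) y.1) n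
  have hx0 : ∀ n, x n ∈ p.F n ∧ x n ∉ p.P n := by
    intro n
    cases n with
    | zero => exact ⟨hf1 0 0, hf2 0 0⟩
    | succ n => exact ⟨hf1 (n + 1) (x n).1, hf2 (n + 1) (x n).1⟩
  have hxm : StrictMono fun n => (x n).1 := strictMono_nat_of_lt_succ fun n => hf3 (n + 1) (x n).1
  let J : Set Om := range x
  have hJ : ∀ m, (J ∩ p.P m).Finite := by
    intro m
    refine ((Set.finite_Iio m).image x).subset ?_
    rintro _ ⟨⟨n, rfl⟩, hn⟩
    refine ⟨n, ?_, rfl⟩
    by_contra hcon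
    exact (hx0 n).2 (p.monoP (not_lt.1 hcon) hn)
  obtain ⟨q, hq, hqF, -⟩ := p.remove J hJ (by
    intro n m
    refine (p.pos n m).mono fun j hj => ?_
    have hfin : (J ∩ col j).Finite := by
      refine Set.Subsingleton.finite ?_
      rintro _ ⟨⟨a, rfl⟩, ha⟩ _ ⟨⟨b, rfl⟩, hb⟩
      have hab : (x a).1 = (x b).1 := (show (x a).1 = j from ha).trans (show (x b).1 = j from hb).symm
      rw [hxm.injective hab]
    refine (Set.Infinite.sdiff hj hfin).mono ?_
    rintro y ⟨⟨⟨h1, h2⟩, h3⟩, h4⟩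
    exact ⟨⟨⟨h1, fun h => h4 ⟨h, h2⟩⟩, h2⟩, h3⟩)
  refine ⟨q, hq, fun n hn => ?_⟩
  have := hn (hx0 n).1
  rw [hqF] at this
  exact this.2 ⟨n, rfl⟩

end Pool.Agent.R594.Sel
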