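import Mathlib

/-!
# Continuous selections over countable domains: definitions

`LSC`, `Selective Y X`, `StronglySelective Y X`, `CSelective X`, `StronglyCSelective X`.
-/

open Set Filter Topology

namespace Pool.Agent.R594.Sel

universe u v

/-- A set-valued map `φ : Y → 𝒫(X)` is lower semicontinuous: for every open `U ⊆ X` the set
`{y | φ y ∩ U ≠ ∅}` is open in `Y`. -/
def LSC {Y : Type u} {X : Type v} [TopologicalSpace Y] [TopologicalSpace X]
    (φ : Y → Set X) : Prop :=
  ∀ U : Set X, IsOpen U → IsOpen {y : Y | (φ y ∩ U).Nonempty}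

/-- `X` is `Y`-selective: every lower semicontinuous map from `Y` to the nonempty closed subsets
of `X` has a continuous selection. -/
def Selective (Y : Type u) (X : Type v) [TopologicalSpace Y] [TopologicalSpace X] : Prop :=
  ∀ φ : Y → Set X, (∀ y, (φ y).Nonempty) → (∀ y, IsClosed (φ y)) → LSC φ →
    ∃ f : Y → X, Continuous f ∧ ∀ y, f y ∈ φ y

/-- `X` is strongly `Y`-selective: every lower semicontinuous map from `Y` to the nonempty
subsets of `X` has a continuous selection. -/
def StronglySelective (Y : Type u) (X : Type v) [TopologicalSpace Y] [TopologicalSpace X] :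
    Prop :=
  ∀ φ : Y → Set X, (∀ y, (φ y).Nonempty) → LSC φ →
    ∃ f : Y → X, Continuous f ∧ ∀ y, f y ∈ φ y

/-- `X` is `C`-selective: it is `Y`-selective for every countable regular (`T₁`) space `Y`. -/
def CSelective (X : Type v) [TopologicalSpace X] : Prop :=
  ∀ (Y : Type) [TopologicalSpace Y] [T1Space Y] [RegularSpace Y] [Countable Y], Selective Y X

/-- `X` is strongly `C`-selective: it is strongly `Y`-selective for every countable regular
(`T₁`) space `Y`. -/
def StronglyCSelective (X : Type v) [TopologicalSpace X] : Prop :=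
  ∀ (Y : Type) [TopologicalSpace Y] [T1Space Y] [RegularSpace Y] [Countable Y],
    StronglySelective Y X

/-- Dependent recursion along `ℕ` with invariants. -/
theorem exists_chain {σ : Type*} (P : ℕ → σ → Prop) (R : ℕ → σ → σ → Prop)
    (h0 : ∃ s, P 0 s) (hs : ∀ n s, P n s → ∃ s', P (n + 1) s' ∧ R n s s') :
    ∃ f : ℕ → σ, (∀ n, P n (f n)) ∧ ∀ n, R n (f n) (f (n + 1)) := by
  choose! g hg1 hg2 using hs
  obtain ⟨s0, hs0⟩ := h0
  let f : ℕ → σ := fun n => Nat.rec s0 (fun n s => g n s) n
  have hP : ∀ n, P n (f n) := by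
    intro n
    induction n with
    | zero => exact hs0
    | succ n ih => exact hg1 n _ ih
  exact ⟨f, hP, fun n => hg2 n _ (hP n)⟩

end Pool.Agent.R594.Sel
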