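import Pool.Agent.R594.Sel.Cnd

/-!
# The dichotomy: a task is killed or it is solved inside a frozen set
-/

open Set Filter Topology

namespace Pool.Agent.R594.Sel

/-- an injective selection from a sequence of infinite sets -/
theorem exists_inj_sel (C : ℕ → Set Om) (hC : ∀ n, (C n).Infinite) :
    ∃ z : ℕ → Om, Function.Injective z ∧ ∀ n, z n ∈ C n := by
  classical
  obtain ⟨f, hf1, hf2⟩ := exists_chain (σ := Finset Om × Om)
    (fun n s => s.2 ∈ s.1 ∧ s.2 ∈ C n) (fun _ s s' => s'.2 ∉ s.1 ∧ s.1 ⊆ s'.1)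
    (by
      obtain ⟨x, hx⟩ := (hC 0).nonempty
      exact ⟨({x}, x), Finset.mem_singleton_self x, hx⟩)
    (by
      rintro n ⟨G, x⟩ -
      obtain ⟨y, hy, hyG⟩ := (hC (n + 1)).exists_notMem_finset G
      exact ⟨(insert y G, y), ⟨Finset.mem_insert_self _ _, hy⟩, hyG, Finset.subset_insert _ _⟩)
  have hmono : ∀ m n, m ≤ n → (f m).1 ⊆ (f n).1 := by
    intro m n hmn
    induction hmn with
    | refl => exact subset_rfl
    | @step n _ ih => exact ih.trans (hf2 n).2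
  have hlt : ∀ m n, m < n → (f m).2 ≠ (f n).2 := by
    intro m n hmn
    obtain ⟨n, rfl⟩ : ∃ n', n = n' + 1 := ⟨n - 1, by omega⟩
    intro h
    apply (hf2 n).1
    rw [← h]
    exact hmono m n (by omega) (hf1 m).1
  refine ⟨fun n => (f n).2, fun a b hab => ?_, fun n => (hf1 n).2⟩
  rcases lt_trichotomy a b with h | h | h
  · exact absurd hab (hlt a b h)
  · exact h
  · exact absurd hab.symm (hlt b a h)

/-- the task is killed -/
def Killed (q : Cnd) (K : Set ℚ) (I : ℚ → Set Om) : Prop :=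
  ∃ k ∈ K, ∃ n, ∀ V ∈ 𝓝 k, ∃ d ∈ V, d ∉ K ∧ I d ∩ q.F n = ∅

/-- the task is solved inside a frozen set -/
def Solved (q : Cnd) (K : Set ℚ) (I : ℚ → Set Om) : Prop :=
  ∃ T : Set Om, (∃ m, T ⊆ q.P m) ∧
    ∀ k ∈ K, ∀ n, ∀ᶠ d in 𝓝 k, d ∉ K → (I d ∩ q.F n ∩ T).Nonempty

theorem kill (p : Cnd) (K : Set ℚ) (I : ℚ → Set Om)
    (h : ∃ k ∈ K, ∃ n, ∀ m, ∀ V ∈ 𝓝 k, ∃ d ∈ V, d ∉ K ∧ (I d ∩ p.F n).Finite ∧
      I d ∩ p.F n ∩ p.P m = ∅) : ∃ q ≤ p, Killed q K I := by
  classical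
  obtain ⟨k, hk, n, h⟩ := h
  obtain ⟨V, hV⟩ := (𝓝 k).exists_antitone_basis
  let ta : ℕ → Set Om := fun i =>
    (p.F i.unpair.1.unpair.1 ∩ col i.unpair.1.unpair.2.unpair.2) \
      p.P i.unpair.1.unpair.2.unpair.1
  obtain ⟨f, hf1, hf2⟩ := exists_chain (σ := Set Om × Set Om)
    (fun i s => s.1.Finite ∧ s.2.Finite ∧ Disjoint s.1 s.2)
    (fun i s s' => s.1 ⊆ s'.1 ∧ s.2 ⊆ s'.2 ∧ (∃ d ∈ V i, d ∉ K ∧ I d ∩ p.F n ⊆ s'.2) ∧
      s'.2 ∩ p.P i ⊆ s.2 ∧ ((ta i).Infinite → ∃ r ∈ ta i, r ∈ s'.1 ∧ r ∉ s.1))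
    ⟨(∅, ∅), finite_empty, finite_empty, disjoint_bot_left⟩
    (by
      rintro i ⟨R, J⟩ ⟨hR, hJ, hRJ⟩
      simp only at hR hJ hRJ
      obtain ⟨m, hm⟩ := p.finite_sub hR
      obtain ⟨d, hdV, hdK, hdf, hde⟩ := h (max m i) (V i) (hV.1.mem_of_mem trivial)
      have hde1 : Disjoint R (I d ∩ p.F n) := by
        rw [disjoint_left]
        intro x hxR hx
        have : x ∈ I d ∩ p.F n ∩ p.P (max m i) :=
          ⟨hx, p.monoP (le_max_left _ _) (hm hxR)⟩
        rw [hde] at this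
        exact this
      have hJ' : (J ∪ (I d ∩ p.F n)).Finite := hJ.union hdf
      have hsub : (J ∪ (I d ∩ p.F n)) ∩ p.P i ⊆ J := by
        rintro x ⟨hx | hx, hxP⟩
        · exact hx
        · have : x ∈ I d ∩ p.F n ∩ p.P (max m i) :=
            ⟨hx, p.monoP (le_max_right _ _) hxP⟩
          rw [hde] at this
          exact absurd this (notMem_empty x)
      by_cases hta : (ta i).Infinite
      · obtain ⟨r, hr, hr'⟩ := hta.exists_notMem_finite (hR.union hJ')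
        refine ⟨(insert r R, J ∪ (I d ∩ p.F n)), ⟨hR.insert r, hJ', ?_⟩, subset_insert _ _,
          subset_union_left, ⟨d, hdV, hdK, subset_union_right⟩, hsub,
          fun _ => ⟨r, hr, mem_insert _ _, fun h => hr' (Or.inl h)⟩⟩
        rw [disjoint_insert_left]
        exact ⟨fun h => hr' (Or.inr h), disjoint_union_right.2 ⟨hRJ, hde1⟩⟩
      · exact ⟨(R, J ∪ (I d ∩ p.F n)), ⟨hR, hJ', disjoint_union_right.2 ⟨hRJ, hde1⟩⟩, subset_rfl,
          subset_union_left, ⟨d, hdV, hdK, subset_union_right⟩, hsub, fun h => absurd h hta⟩)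
  have hm1 : Monotone fun i => (f i).1 := monotone_nat_of_le_succ fun i => (hf2 i).1
  have hm2 : Monotone fun i => (f i).2 := monotone_nat_of_le_succ fun i => (hf2 i).2.1
  let R : Set Om := ⋃ i, (f i).1
  let J : Set Om := ⋃ i, (f i).2
  have hRJ : ∀ x ∈ R, x ∉ J := by
    intro x hx hx'
    obtain ⟨i, hi⟩ := mem_iUnion.1 hx
    obtain ⟨i', hi'⟩ := mem_iUnion.1 hx'
    exact disjoint_left.1 (hf1 (max i i')).2.2 (hm1 (le_max_left i i') hi)
      (hm2 (le_max_right i i') hi')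
  have hJP : ∀ m, (J ∩ p.P m).Finite := by
    intro m
    refine (hf1 m).2.1.subset ?_
    rintro x ⟨hx, hxP⟩
    obtain ⟨i, hi⟩ := mem_iUnion.1 hx
    rcases le_total i m with him | him
    · exact hm2 him hi
    · induction him with
      | refl => exact hi
      | @step i him ih =>
        exact ih ((hf2 i).2.2.2.1 ⟨hi, p.monoP him hxP⟩)
  obtain ⟨q, hq, hqF, -⟩ := p.remove J hJP (by
    intro a b
    refine (p.pos a b).mono fun j hj => ?_
    -- infinitely many protected points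
    have hinf : Set.Infinite {r | r ∈ (p.F a ∩ col j) \ p.P b ∧ r ∈ R} := by
      have hcode : ∀ c : ℕ, ta (Nat.pair (Nat.pair a (Nat.pair b j)) c) =
          (p.F a ∩ col j) \ p.P b := by
        intro c
        simp only [ta, Nat.unpair_pair]
      have hr : ∀ c : ℕ, ∃ r, r ∈ (p.F a ∩ col j) \ p.P b ∧
          r ∈ (f (Nat.pair (Nat.pair a (Nat.pair b j)) c + 1)).1 ∧
          r ∉ (f (Nat.pair (Nat.pair a (Nat.pair b j)) c)).1 := by
        intro c
        obtain ⟨r, hr1, hr2⟩ := (hf2 (Nat.pair (Nat.pair a (Nat.pair b j)) c)).2.2.2.2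
          (by rw [hcode]; exact hj)
        rw [hcode] at hr1
        exact ⟨r, hr1, hr2⟩
      choose r hr1 hr2 hr3 using hr
      refine Set.infinite_of_injective_forall_mem (f := r) ?_ fun c =>
        ⟨hr1 c, mem_iUnion.2 ⟨_, hr2 c⟩⟩
      have hlt : ∀ c c', c < c' → r c ≠ r c' := by
        intro c c' hcc h
        apply hr3 c'
        rw [← h]
        exact hm1 (Nat.succ_le_of_lt (Nat.pair_lt_pair_right _ hcc)) (hr2 c)
      intro c c' hcc
      rcases lt_trichotomy c c' with h | h | h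
      · exact absurd hcc (hlt _ _ h)
      · exact h
      · exact absurd hcc.symm (hlt _ _ h)
    refine hinf.mono ?_
    rintro r ⟨⟨⟨hr1, hr2⟩, hr3⟩, hr4⟩
    exact ⟨⟨⟨hr1, hRJ r hr4⟩, hr2⟩, hr3⟩)
  refine ⟨q, hq, k, hk, n, fun W hW => ?_⟩
  obtain ⟨i, -, hi⟩ := hV.1.mem_iff.1 hW
  obtain ⟨d, hdV, hdK, hdJ⟩ := (hf2 i).2.2.1
  refine ⟨d, hi hdV, hdK, ?_⟩
  rw [hqF, eq_empty_iff_forall_notMem]
  rintro x ⟨hx1, hx2, hx3⟩
  exact hx3 (mem_iUnion.2 ⟨i + 1, hdJ ⟨hx1, hx2⟩⟩)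

theorem solve (p : Cnd) (K : Set ℚ) (I : ℚ → Set Om)
    (h : ∀ k ∈ K, ∀ n, ∃ m, ∃ V ∈ 𝓝 k, ∀ d ∈ V, d ∉ K → (I d ∩ p.F n).Infinite ∨
      (I d ∩ p.F n ∩ p.P m).Nonempty) : ∃ q ≤ p, Solved q K I := by
  classical
  let e : ℕ ≃ ℚ := (Denumerable.eqv ℚ).symm
  have h' : ∀ l n, ∃ m, e l ∈ K → ∃ V ∈ 𝓝 (e l), ∀ d ∈ V, d ∉ K → (I d ∩ p.F n).Infinite ∨
      (I d ∩ p.F n ∩ p.P m).Nonempty := by
    intro l n
    by_cases hl : e l ∈ K
    · obtain ⟨m, hm⟩ := h _ hl n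
      exact ⟨m, fun _ => hm⟩
    · exact ⟨0, fun h => absurd h hl⟩
  choose mf hmf using h'
  have step : ∀ (i n0 m0 : ℕ), ∃ s : ℕ × ℕ × ℕ, n0 < s.1 ∧ m0 ≤ s.2.1 ∧ i ≤ s.1 ∧ i ≤ s.2.1 ∧
      s.1 ≤ s.2.2 ∧ (∀ l ≤ i, mf l s.1 ≤ s.2.1) ∧ ((p.F i ∩ col s.2.2) \ p.P s.2.1).Infinite := by
    intro i n0 m0
    let n' := max i (n0 + 1)
    let m' := max (max i m0) ((Finset.range (i + 1)).sup fun l => mf l n')
    obtain ⟨j, hj, hjn⟩ := (p.pos i m').exists_gt n'
    refine ⟨(n', m', j), ?_, ?_, ?_, ?_, hjn.le, ?_, hj⟩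
    · exact lt_of_lt_of_le (Nat.lt_succ_self n0) (le_max_right _ _)
    · exact (le_max_right _ _).trans (le_max_left _ _)
    · exact le_max_left _ _
    · exact (le_max_left _ _).trans (le_max_left _ _)
    · intro l hl
      exact (Finset.le_sup (f := fun l => mf l n') (Finset.mem_range.2 (by omega))).trans
        (le_max_right _ _)
  obtain ⟨f, hf1, hf2⟩ := exists_chain (σ := ℕ × ℕ × ℕ)
    (fun i s => i ≤ s.1 ∧ i ≤ s.2.1 ∧ s.1 ≤ s.2.2 ∧ (∀ l ≤ i, mf l s.1 ≤ s.2.1) ∧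
      ((p.F i ∩ col s.2.2) \ p.P s.2.1).Infinite)
    (fun i s s' => s.2.2 < s'.1 ∧ s.2.1 ≤ s'.2.1)
    (by
      obtain ⟨s, hs⟩ := step 0 0 0
      exact ⟨s, hs.2.2⟩)
    (by
      intro i s _
      obtain ⟨s', hs'⟩ := step (i + 1) s.2.2 s.2.1
      exact ⟨s', hs'.2.2, hs'.1, hs'.2.1⟩)
  have hmm : Monotone fun i => (f i).2.1 := monotone_nat_of_le_succ fun i => (hf2 i).2
  have hjj : StrictMono fun i => (f i).2.2 :=
    strictMono_nat_of_lt_succ fun i => (hf2 i).1.trans_le (hf1 (i + 1)).2.2.1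
  have hjn : ∀ i i', i < i' → (f i).2.2 < (f i').1 := by
    intro i i' hii
    obtain ⟨i', rfl⟩ : ∃ i'', i' = i'' + 1 := ⟨i' - 1, by omega⟩
    exact (hjj.monotone (show i ≤ i' by omega)).trans_lt (hf2 i').1
  -- the separation
  let g : ℕ → ℕ := fun s => Nat.findGreatest (fun g => (I (e s) ∩ p.F g).Infinite) s
  let C : ℕ → Set Om := fun u =>
    if u % 2 = 0 then
      (if (I (e (u / 2)) ∩ p.F 0).Infinite then I (e (u / 2)) ∩ p.F (g (u / 2)) else univ)
    else (p.F (u / 2).unpair.1 ∩ col (f (u / 2).unpair.1).2.2) \ p.P (f (u / 2).unpair.1).2.1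
  have hC : ∀ u, (C u).Infinite := by
    intro u
    by_cases hu : u % 2 = 0
    · by_cases hI : (I (e (u / 2)) ∩ p.F 0).Infinite
      · simp only [C, if_pos hu, if_pos hI]
        exact Nat.findGreatest_spec (P := fun g => (I (e (u / 2)) ∩ p.F g).Infinite)
          (Nat.zero_le _) hI
      · simp only [C, if_pos hu, if_neg hI]
        exact infinite_univ
    · simp only [C, if_neg hu]
      exact (hf1 _).2.2.2.2
  obtain ⟨z, hz1, hz2⟩ := exists_inj_sel C hC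
  let T1 : Set Om := ⋃ i, p.F (f i).1 ∩ p.P (f i).2.1
  let T2 : Set Om := {x | ∃ s, (I (e s) ∩ p.F 0).Infinite ∧ z (2 * s) = x}
  let T : Set Om := T1 ∪ T2
  have hzT : ∀ s, z (2 * s + 1) ∈ (p.F s.unpair.1 ∩ col (f s.unpair.1).2.2) \
      p.P (f s.unpair.1).2.1 := by
    intro s
    have := hz2 (2 * s + 1)
    have h1 : (2 * s + 1) % 2 ≠ 0 := by omega
    have h2 : (2 * s + 1) / 2 = s := by omega
    simpa only [C, if_neg h1, h2] using this
  have hzy : ∀ s, (I (e s) ∩ p.F 0).Infinite → z (2 * s) ∈ I (e s) ∩ p.F (g s) := by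
    intro s hs
    have := hz2 (2 * s)
    have h1 : (2 * s) % 2 = 0 := by omega
    have h2 : (2 * s) / 2 = s := by omega
    simp only [C, if_pos h1, h2, if_pos hs] at this
    exact this
  let q : Cnd :=
    { F := p.F
      P := fun m => p.P m ∪ T
      antiF := p.antiF
      monoP := fun a b hab => union_subset_union_left _ (p.monoP hab)
      colF := p.colF
      ptP := fun x => by
        obtain ⟨m, hm⟩ := p.ptP x
        exact ⟨m, Or.inl hm⟩
      pos := fun n m => by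
        refine Set.infinite_of_injective_forall_mem (f := fun i => (f (max n m + i)).2.2)
          (fun a b hab => by simpa using hjj.injective hab) fun i => ?_
        let i' := max n m + i
        have hn : n ≤ i' := (le_max_left n m).trans (Nat.le_add_right _ _)
        have hm : m ≤ i' := (le_max_right n m).trans (Nat.le_add_right _ _)
        refine Set.infinite_of_injective_forall_mem
          (f := fun c => z (2 * (Nat.pair i' c) + 1)) (fun a b hab => ?_) fun c => ?_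
        · have h1 := hz1 hab
          have h2 : Nat.pair i' a = Nat.pair i' b := by omega
          exact (Nat.pair_eq_pair.1 h2).2
        · have h3 := hzT (Nat.pair i' c)
          rw [Nat.unpair_pair] at h3
          obtain ⟨⟨h4, h5⟩, h6⟩ := h3
          refine ⟨⟨p.antiF hn h4, h5⟩, ?_⟩
          rintro (h7 | h7 | h7)
          · exact h6 (p.monoP (hm.trans (hf1 i').2.1) h7)
          · obtain ⟨i'', hi1, hi2⟩ := mem_iUnion.1 h7
            have h8 := p.colF _ _ hi1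
            have h9 : (z (2 * Nat.pair i' c + 1)).1 = (f i').2.2 := h5
            rcases lt_or_ge i' i'' with h10 | h10
            · have := hjn i' i'' h10
              omega
            · exact h6 (p.monoP (hmm h10) hi2)
          · obtain ⟨s, -, hs⟩ := h7
            have := hz1 hs
            omega }
  refine ⟨q, ⟨fun n => ⟨n, subset_rfl⟩, fun n => ⟨n, subset_union_left⟩,
    fun n m => ⟨n, inter_subset_left⟩⟩, T, ⟨0, subset_union_right⟩, fun k hk n => ?_⟩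
  obtain ⟨l, rfl⟩ := e.surjective k
  let i := max l n
  have hi : l ≤ i := le_max_left _ _
  have hni : n ≤ (f i).1 := (le_max_right l n).trans (hf1 i).1
  obtain ⟨V, hV, hV'⟩ := hmf l (f i).1 hk
  have hfin : ((e '' {s | s < (f i).1 ∧ s ≠ l})ᶜ : Set ℚ) ∈ 𝓝 (e l) := by
    apply IsOpen.mem_nhds
    · apply (Set.Finite.isClosed _).isOpen_compl
      apply Set.Finite.image
      exact (Set.finite_Iio _).subset fun j hj => hj.1
    · rintro ⟨j, ⟨-, hj⟩, hje⟩
      exact hj (e.injective hje)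
  filter_upwards [hV, hfin] with d hd hd' hdK
  obtain ⟨s, rfl⟩ := e.surjective d
  have hs : (f i).1 ≤ s := by
    by_contra hcon
    refine hd' ⟨s, ⟨not_le.1 hcon, ?_⟩, rfl⟩
    rintro rfl
    exact hdK hk
  by_cases hinf : (I (e s) ∩ p.F (f i).1).Infinite
  · have h0 : (I (e s) ∩ p.F 0).Infinite :=
      hinf.mono (inter_subset_inter_right _ (p.antiF (Nat.zero_le _)))
    have hg : (f i).1 ≤ g s :=
      Nat.le_findGreatest (P := fun g => (I (e s) ∩ p.F g).Infinite) hs hinf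
    have hy := hzy s h0
    exact ⟨z (2 * s), ⟨hy.1, p.antiF (hni.trans hg) hy.2⟩, Or.inr ⟨s, h0, rfl⟩⟩
  · rcases hV' (e s) hd hdK with h1 | ⟨x, ⟨hx1, hx2⟩, hx3⟩
    · exact absurd h1 hinf
    · exact ⟨x, ⟨hx1, p.antiF hni hx2⟩, Or.inl (mem_iUnion.2 ⟨i, hx2,
        p.monoP ((hf1 i).2.2.2.1 l hi) hx3⟩)⟩

theorem dich (p : Cnd) (K : Set ℚ) (I : ℚ → Set Om) :
    ∃ q ≤ p, Killed q K I ∨ Solved q K I := by
  by_cases h : ∃ k ∈ K, ∃ n, ∀ m, ∀ V ∈ 𝓝 k, ∃ d ∈ V, d ∉ K ∧ (I d ∩ p.F n).Finite ∧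
      I d ∩ p.F n ∩ p.P m = ∅
  · obtain ⟨q, hq, h'⟩ := kill p K I h
    exact ⟨q, hq, Or.inl h'⟩
  · push Not at h
    obtain ⟨q, hq, h'⟩ := solve p K I (by
      intro k hk n
      obtain ⟨m, V, hV, hd⟩ := h k hk n
      refine ⟨m, V, hV, fun d hdV hdK => ?_⟩
      by_cases hf : (I d ∩ p.F n).Finite
      · exact Or.inr (hd d hdV hdK hf)
      · exact Or.inl hf)
    exact ⟨q, hq, Or.inr h'⟩

end Pool.Agent.R594.Sel
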