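import Pool.Agent.R594.Sel.Michael

/-!
# `ℚ`-selective spaces: the metric fan
-/

open Set Filter Topology

namespace Pool.Agent.R594.Sel

universe u

/-- a sequence of rational numbers in `(1, 2)` which converges to `√2` -/
theorem exists_rat_seq : ∃ r : ℕ → ℚ, Function.Injective r ∧ (∀ m, 1 < r m) ∧ (∀ m, r m < 2) ∧
    Tendsto (fun m => (r m : ℝ)) atTop (𝓝 (√2)) := by
  obtain ⟨u, hu1, hu2, hu3⟩ := Real.exists_seq_rat_strictMono_tendsto (√2)
  have h1 : (1 : ℝ) < √2 := Real.one_lt_sqrt_two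
  have h2 : √2 < 2 := by
    nlinarith [Real.sq_sqrt (show (0 : ℝ) ≤ 2 by norm_num), Real.sqrt_nonneg 2]
  obtain ⟨M, hM⟩ := (hu3.eventually (lt_mem_nhds h1)).exists_forall_of_atTop
  refine ⟨fun m => u (m + M), fun a b hab => ?_, fun m => ?_, fun m => ?_, ?_⟩
  · have := hu1.injective hab
    omega
  · have := hM (m + M) (by omega)
    exact_mod_cast this
  · have := (hu2 (m + M)).trans h2
    exact_mod_cast this
  · exact hu3.comp (tendsto_add_atTop_nat M)

/-- the closed embedding of the metric fan into `ℚ` -/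
theorem exists_embedding {D : Type} [Countable D] (n : D → ℕ) : ∃ j : D → ℚ,
    Function.Injective j ∧ (∀ d, j d ≠ 0) ∧
    (∀ x : ℚ, x ≠ 0 → ∃ ε > (0 : ℝ), {d | dist (j d) x < ε}.Finite) ∧
    (∀ N, ∃ δ > (0 : ℝ), ∀ d, n d < N → δ ≤ dist (j d) 0) ∧
    (∀ V ∈ 𝓝 (0 : ℚ), ∃ N, ∀ d, N ≤ n d → j d ∈ V) := by
  obtain ⟨r, hr1, hr2, hr3, hr4⟩ := exists_rat_seq
  obtain ⟨code, hcode⟩ := exists_injective_nat D
  let j : D → ℚ := fun d => r (code d) * (1 / 4) ^ n d
  have hjpos : ∀ d, 0 < j d := fun d => mul_pos (by linarith [hr2 (code d)]) (by positivity)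
  have hjlt : ∀ d, j d < 2 * (1 / 4) ^ n d := fun d =>
    mul_lt_mul_of_pos_right (hr3 _) (by positivity)
  have hjgt : ∀ d, (1 / 4) ^ n d < j d := fun d => by
    have h := mul_lt_mul_of_pos_right (hr2 (code d)) (show (0 : ℚ) < (1 / 4) ^ n d by positivity)
    rwa [one_mul] at h
  have hpow : ∀ a b : ℕ, a < b → (2 : ℚ) * (1 / 4) ^ b < (1 / 4) ^ a := by
    intro a b hab
    obtain ⟨c, rfl⟩ := Nat.exists_eq_add_of_lt hab
    have h1 : ((1 : ℚ) / 4) ^ (a + c + 1) = (1 / 4) ^ a * ((1 / 4) ^ c * (1 / 4)) := by ring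
    have h2 : ((1 : ℚ) / 4) ^ c ≤ 1 := pow_le_one₀ (by norm_num) (by norm_num)
    have h3 : (0 : ℚ) < (1 / 4) ^ a := by positivity
    rw [h1]
    nlinarith
  have hdist : ∀ d, dist (j d) 0 = (j d : ℝ) := by
    intro d
    rw [Rat.dist_eq, Rat.cast_zero, sub_zero, abs_of_pos]
    exact_mod_cast hjpos d
  have hsmall : ∀ ε > (0 : ℝ), ∃ N, ∀ d, N ≤ n d → (j d : ℝ) < ε := by
    intro ε hε
    obtain ⟨N, hN⟩ := exists_pow_lt_of_lt_one (half_pos hε) (show (1 / 4 : ℝ) < 1 by norm_num)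
    refine ⟨N, fun d hd => ?_⟩
    have h1 : (j d : ℝ) < 2 * (1 / 4) ^ n d := by
      have := hjlt d
      have h' : ((j d : ℚ) : ℝ) < ((2 * (1 / 4) ^ n d : ℚ) : ℝ) := by exact_mod_cast this
      simpa using h'
    have h2 : ((1 : ℝ) / 4) ^ n d ≤ (1 / 4) ^ N :=
      pow_le_pow_of_le_one (by norm_num) (by norm_num) hd
    linarith
  refine ⟨j, fun a b hab => ?_, fun d => (hjpos d).ne', fun x hx => ?_, fun N => ?_,
    fun V hV => ?_⟩
  · have hn : n a = n b := by
      rcases lt_trichotomy (n a) (n b) with h | h | h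
      · have h1 := hpow _ _ h
        have h2 := hjlt b
        have h3 := hjgt a
        rw [hab] at h3
        linarith
      · exact h
      · have h1 := hpow _ _ h
        have h2 := hjlt a
        have h3 := hjgt b
        rw [hab] at h2
        linarith
    have hab' : r (code a) * (1 / 4) ^ n a = r (code b) * (1 / 4) ^ n b := hab
    rw [hn] at hab'
    exact hcode (hr1 (mul_right_cancel₀ (by positivity) hab'))
  · -- local finiteness
    have hx' : (0 : ℝ) < |(x : ℝ)| / 2 := by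
      have : (x : ℝ) ≠ 0 := by exact_mod_cast hx
      positivity
    obtain ⟨N, hN⟩ := hsmall _ hx'
    have hn : ∀ k : ℕ, ∃ ε > (0 : ℝ), ∃ M, ∀ m ≥ M, ε ≤ |(r m : ℝ) * (1 / 4) ^ k - x| := by
      intro k
      have hlim : Tendsto (fun m => |(r m : ℝ) * (1 / 4) ^ k - x|) atTop
          (𝓝 |√2 * (1 / 4) ^ k - x|) :=
        ((hr4.mul_const _).sub_const _).abs
      have hne : √2 * (1 / 4) ^ k - (x : ℝ) ≠ 0 := by
        intro h0
        have h1 : √2 = x * 4 ^ k := by
          have h2 : √2 * (1 / 4) ^ k = x := by linarith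
          rw [← h2]
          have h3 : ((1 : ℝ) / 4) ^ k * 4 ^ k = 1 := by
            rw [← mul_pow]; norm_num
          rw [mul_assoc, h3, mul_one]
        apply irrational_sqrt_two
        refine ⟨x * 4 ^ k, ?_⟩
        rw [h1]
        push_cast
        rfl
      have hpos : 0 < |√2 * (1 / 4) ^ k - (x : ℝ)| := abs_pos.2 hne
      obtain ⟨M, hM⟩ := (hlim.eventually (lt_mem_nhds (half_lt_self hpos))).exists_forall_of_atTop
      exact ⟨_, half_pos hpos, M, fun m hm => (hM m hm).le⟩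
    choose ε hε M hM using hn
    obtain ⟨ε', hε', hle⟩ : ∃ ε' > (0 : ℝ), ∀ k < N, ε' ≤ ε k := by
      have : ∀ N : ℕ, ∃ ε' > (0 : ℝ), ∀ k < N, ε' ≤ ε k := by
        intro N
        induction N with
        | zero => exact ⟨1, one_pos, fun k hk => absurd hk (by omega)⟩
        | succ N ih =>
          obtain ⟨δ, hδ, hδ'⟩ := ih
          refine ⟨min δ (ε N), lt_min hδ (hε N), fun k hk => ?_⟩
          rcases Nat.lt_succ_iff_lt_or_eq.1 hk with h | h
          · exact (min_le_left _ _).trans (hδ' k h)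
          · rw [h]; exact min_le_right _ _
      exact this N
    refine ⟨min (|(x : ℝ)| / 2) ε', lt_min hx' hε', ?_⟩
    have hfin : Set.Finite {m : ℕ | ∃ k < N, m < M k} := by
      have : {m : ℕ | ∃ k < N, m < M k} ⊆ ⋃ k ∈ Set.Iio N, Set.Iio (M k) := by
        rintro m ⟨k, hk, hm⟩
        exact mem_biUnion hk hm
      exact ((Set.finite_Iio N).biUnion fun k _ => Set.finite_Iio (M k)).subset this
    refine Set.Finite.subset (hfin.preimage hcode.injOn) ?_
    intro d hd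
    have hd' : |((j d : ℚ) : ℝ) - x| < min (|(x : ℝ)| / 2) ε' := by
      have : dist (j d) x < min (|(x : ℝ)| / 2) ε' := hd
      rwa [Rat.dist_eq] at this
    have hnd : n d < N := by
      by_contra hcon
      have h1 := hN d (not_lt.1 hcon)
      have h2 : |((j d : ℚ) : ℝ) - x| < |(x : ℝ)| / 2 := hd'.trans_le (min_le_left _ _)
      have h3 : |(x : ℝ)| ≤ |(j d : ℝ)| + |((j d : ℚ) : ℝ) - x| := by
        have := abs_sub_abs_le_abs_sub (x : ℝ) (j d : ℝ)
        rw [abs_sub_comm (x : ℝ) (j d : ℝ)] at this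
        linarith
      have h4 : |(j d : ℝ)| = j d := abs_of_pos (by exact_mod_cast hjpos d)
      rw [h4] at h3
      linarith
    refine ⟨n d, hnd, ?_⟩
    by_contra hcon
    have h1 := hM (n d) (code d) (not_lt.1 hcon)
    have h2 : |((j d : ℚ) : ℝ) - x| < ε' := hd'.trans_le (min_le_right _ _)
    have h3 : ((j d : ℚ) : ℝ) = (r (code d) : ℝ) * (1 / 4) ^ n d := by
      show ((r (code d) * (1 / 4) ^ n d : ℚ) : ℝ) = _
      push_cast
      rfl
    rw [h3] at h2
    linarith [hle (n d) hnd]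
  · refine ⟨(1 / 4) ^ N, by positivity, fun d hd => ?_⟩
    rw [hdist]
    have h1 := hjgt d
    have h2 : ((1 : ℝ) / 4) ^ n d < j d := by
      have h' : ((((1 : ℚ) / 4) ^ n d : ℚ) : ℝ) < ((j d : ℚ) : ℝ) := by exact_mod_cast h1
      simpa using h'
    have h3 : ((1 : ℝ) / 4) ^ N ≤ (1 / 4) ^ n d :=
      pow_le_pow_of_le_one (by norm_num) (by norm_num) hd.le
    linarith
  · obtain ⟨ε, hε, hεV⟩ := Metric.mem_nhds_iff.1 hV
    obtain ⟨N, hN⟩ := hsmall ε hε
    refine ⟨N, fun d hd => hεV ?_⟩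
    rw [Metric.mem_ball, hdist]
    exact hN d hd

/-- The metric fan selection property of `ℚ`-selective spaces. -/
theorem fan {X : Type u} [TopologicalSpace X] [T1Space X] (hQ : Selective ℚ X)
    {D : Type} [Countable D] (a : X) (C : D → Set X) (hCne : ∀ d, (C d).Nonempty)
    (hCcl : ∀ d, IsClosed (C d)) (n : D → ℕ)
    (h : ∀ U, IsOpen U → a ∈ U → ∃ N, ∀ d, N ≤ n d → (C d ∩ U).Nonempty) :
    ∃ c : D → X, (∀ d, c d ∈ C d) ∧ ∀ U, IsOpen U → a ∈ U → ∃ N, ∀ d, N ≤ n d → c d ∈ U := by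
  classical
  obtain ⟨j, hj1, hj2, hj3, hj4, hj5⟩ := exists_embedding n
  let φ : ℚ → Set X := fun q => {z | (q = 0 → z = a) ∧ ∀ d, j d = q → z ∈ C d}
  have hφ0 : φ 0 = {a} := by
    ext z
    exact ⟨fun hz => hz.1 rfl, fun hz => ⟨fun _ => hz, fun d hd => absurd hd (hj2 d)⟩⟩
  have hφj : ∀ d, φ (j d) = C d := by
    intro d
    ext z
    refine ⟨fun hz => hz.2 d rfl, fun hz => ⟨fun h0 => absurd h0 (hj2 d), fun d' hd' => ?_⟩⟩
    rw [hj1 hd']
    exact hz
  have hφo : ∀ q, q ≠ 0 → (∀ d, j d ≠ q) → φ q = univ := by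
    intro q hq hd
    ext z
    exact ⟨fun _ => mem_univ _, fun _ => ⟨fun h => absurd h hq, fun d h => absurd h (hd d)⟩⟩
  have hcase : ∀ q, q = 0 ∨ (∃ d, j d = q) ∨ (q ≠ 0 ∧ ∀ d, j d ≠ q) := by
    intro q
    by_cases h0 : q = 0
    · exact Or.inl h0
    · by_cases hd : ∃ d, j d = q
      · exact Or.inr (Or.inl hd)
      · push Not at hd
        exact Or.inr (Or.inr ⟨h0, hd⟩)
  have hne : ∀ q, (φ q).Nonempty := by
    intro q
    rcases hcase q with rfl | ⟨d, rfl⟩ | ⟨h0, hd⟩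
    · rw [hφ0]; exact singleton_nonempty a
    · rw [hφj]; exact hCne d
    · rw [hφo q h0 hd]; exact ⟨a, mem_univ a⟩
  have hcl : ∀ q, IsClosed (φ q) := by
    intro q
    rcases hcase q with rfl | ⟨d, rfl⟩ | ⟨h0, hd⟩
    · rw [hφ0]; exact isClosed_singleton
    · rw [hφj]; exact hCcl d
    · rw [hφo q h0 hd]; exact isClosed_univ
  have hlsc : LSC φ := by
    intro U hU
    rw [isOpen_iff_mem_nhds]
    intro q hq
    have hUne : U.Nonempty := by
      obtain ⟨z, _, hz⟩ := hq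
      exact ⟨z, hz⟩
    by_cases h0 : q = 0
    · subst h0
      have haU : a ∈ U := by
        obtain ⟨z, hz, hzU⟩ := hq
        rw [hφ0] at hz
        rwa [← show z = a from hz]
      obtain ⟨N, hN⟩ := h U hU haU
      obtain ⟨δ, hδ, hδ'⟩ := hj4 N
      filter_upwards [Metric.ball_mem_nhds (0 : ℚ) hδ] with x hx
      rcases hcase x with rfl | ⟨d, rfl⟩ | ⟨h0, hd⟩
      · exact hq
      · show (φ (j d) ∩ U).Nonempty
        rw [hφj]
        apply hN
        by_contra hcon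
        have := hδ' d (not_le.1 hcon)
        rw [Metric.mem_ball] at hx
        linarith
      · show (φ x ∩ U).Nonempty
        rw [hφo x h0 hd, univ_inter]
        exact hUne
    · obtain ⟨ε, hε, hfin⟩ := hj3 q h0
      have hfin' : ((j '' ({d | dist (j d) q < ε} \ {d | j d = q}) ∪ {0})ᶜ : Set ℚ) ∈ 𝓝 q := by
        apply IsOpen.mem_nhds
        · exact (((hfin.subset sdiff_subset).image j).union (finite_singleton 0)).isClosed.isOpen_compl
        · rintro (⟨d, ⟨-, hd⟩, hd'⟩ | h)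
          · exact hd hd'
          · exact h0 h
      filter_upwards [Metric.ball_mem_nhds q hε, hfin'] with x hx hx'
      rcases hcase x with rfl | ⟨d, rfl⟩ | ⟨h0, hd⟩
      · exact absurd (Or.inr rfl) hx'
      · by_cases hdq : j d = q
        · show (φ (j d) ∩ U).Nonempty
          rw [hdq]
          exact hq
        · exact absurd (Or.inl ⟨d, ⟨hx, hdq⟩, rfl⟩) hx'
      · show (φ x ∩ U).Nonempty
        rw [hφo x h0 hd, univ_inter]
        exact hUne
  obtain ⟨f, hf, hfφ⟩ := hQ φ hne hcl hlsc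
  refine ⟨fun d => f (j d), fun d => ?_, fun U hU haU => ?_⟩
  · have := hfφ (j d)
    rwa [hφj] at this
  · have h0 : f 0 = a := by
      have := hfφ 0
      rwa [hφ0] at this
    have hV : f ⁻¹' U ∈ 𝓝 (0 : ℚ) := by
      apply (hU.preimage hf).mem_nhds
      show f 0 ∈ U
      rw [h0]; exact haU
    obtain ⟨N, hN⟩ := hj5 _ hV
    exact ⟨N, fun d hd => hN d hd⟩

end Pool.Agent.R594.Sel
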