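import Pool.Agent.R594.Sel.Defs

/-!
# Countable subspaces of `C`-selective spaces are first countable
-/

open Set Filter Topology

namespace Pool.Agent.R594.Sel

universe u

/-- The topology on `Option (ℕ × ℕ)` in which the points `(c, d)` are isolated and the
neighbourhoods of `none` are the sets containing all `(c, d)` with `e c ∈ V` or `e d ∈ V`, for
some neighbourhood `V` of `x`. -/
@[reducible] def dtop {X : Type u} [TopologicalSpace X] (e : ℕ → X) (x : X) :
    TopologicalSpace (Option (ℕ × ℕ)) where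
  IsOpen W := none ∈ W → ∃ V : Set X, IsOpen V ∧ x ∈ V ∧
    ∀ c d : ℕ, (e c ∈ V ∨ e d ∈ V) → some (c, d) ∈ W
  isOpen_univ := fun _ => ⟨univ, isOpen_univ, mem_univ _, fun _ _ _ => mem_univ _⟩
  isOpen_inter := by
    intro s t hs ht h
    obtain ⟨V, hV, hxV, h1⟩ := hs h.1
    obtain ⟨V', hV', hxV', h2⟩ := ht h.2
    refine ⟨V ∩ V', hV.inter hV', ⟨hxV, hxV'⟩, fun c d hcd => ⟨h1 c d ?_, h2 c d ?_⟩⟩
    · exact hcd.imp (fun h => h.1) (fun h => h.1)
    · exact hcd.imp (fun h => h.2) (fun h => h.2)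
  isOpen_sUnion := by
    intro s hs h
    obtain ⟨t, ht, hnt⟩ := h
    obtain ⟨V, hV, hxV, h1⟩ := hs t ht hnt
    exact ⟨V, hV, hxV, fun c d hcd => ⟨t, ht, h1 c d hcd⟩⟩

theorem firstCountable_aux {X : Type u} [TopologicalSpace X] [T1Space X] (hX : CSelective X)
    (e : ℕ → X) (x : X) (hx : x ∉ range e) (hcl : x ∈ closure (range e)) :
    ∃ B : ℕ → Set X, (∀ d, ∃ V, IsOpen V ∧ x ∈ V ∧ V ∩ range e ⊆ B d) ∧
      ∀ U, IsOpen U → x ∈ U → ∃ d, B d ⊆ U := by
  classical
  letI : TopologicalSpace (Option (ℕ × ℕ)) := dtop e x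
  have hopen : ∀ W : Set (Option (ℕ × ℕ)), IsOpen W ↔ (none ∈ W → ∃ V : Set X, IsOpen V ∧ x ∈ V ∧
    ∀ c d : ℕ, (e c ∈ V ∨ e d ∈ V) → some (c, d) ∈ W) := fun W => Iff.rfl
  haveI hT1 : T1Space (Option (ℕ × ℕ)) := by
    refine ⟨fun p => ⟨?_⟩⟩
    rw [hopen]
    intro hp
    cases p with
    | none => exact absurd rfl hp
    | some q =>
      obtain ⟨c, d⟩ := q
      refine ⟨{e c, e d}ᶜ, (Set.Finite.isClosed (by simp)).isOpen_compl, ?_, ?_⟩
      · intro h
        rcases h with h | h
        · exact hx ⟨c, h.symm⟩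
        · exact hx ⟨d, h.symm⟩
      · intro c' d' h h'
        have h2 : (c', d') = (c, d) := Option.some.inj h'
        have hc : c' = c := congrArg Prod.fst h2
        have hd : d' = d := congrArg Prod.snd h2
        subst hc; subst hd
        rcases h with h | h
        · exact h (Or.inl rfl)
        · exact h (Or.inr rfl)
  haveI hreg : RegularSpace (Option (ℕ × ℕ)) := by
    apply RegularSpace.of_exists_mem_nhds_isClosed_subset
    intro p s hs
    obtain ⟨t, hts, ht, hpt⟩ := mem_nhds_iff.1 hs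
    cases p with
    | some q =>
      refine ⟨{some q}, ?_, isClosed_singleton, fun z hz => ?_⟩
      · have hq : IsOpen ({some q} : Set (Option (ℕ × ℕ))) := by
          rw [hopen]
          intro h
          exact absurd (show (none : Option (ℕ × ℕ)) = some q from h) (by simp)
        exact hq.mem_nhds rfl
      · rw [show z = some q from hz]
        exact hts hpt
    | none =>
      refine ⟨t, ht.mem_nhds hpt, ⟨?_⟩, hts⟩
      rw [hopen]
      intro h
      exact absurd hpt h
  let φ : Option (ℕ × ℕ) → Set X := fun p => match p with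
    | none => {x}
    | some (c, d) => {e c, e d}
  have hlsc : LSC φ := by
    intro U hU
    rw [hopen]
    intro h
    have hxU : x ∈ U := by
      obtain ⟨z, hz1, hz2⟩ := h
      rw [show z = x from hz1] at hz2
      exact hz2
    refine ⟨U, hU, hxU, fun c d hcd => ?_⟩
    rcases hcd with h | h
    · exact ⟨e c, Or.inl rfl, h⟩
    · exact ⟨e d, Or.inr rfl, h⟩
  obtain ⟨s, hs, hsφ⟩ := hX (Option (ℕ × ℕ)) φ
    (by rintro (_ | ⟨c, d⟩)
        · exact ⟨x, rfl⟩
        · exact ⟨e c, Or.inl rfl⟩)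
    (by rintro (_ | ⟨c, d⟩)
        · exact isClosed_singleton
        · exact Set.Finite.isClosed (by simp [φ])) hlsc
  have hs0 : s none = x := hsφ none
  have hs1 : ∀ c d, s (some (c, d)) = e c ∨ s (some (c, d)) = e d := fun c d => hsφ (some (c, d))
  have key : ∀ U : Set X, IsOpen U → x ∈ U → ∃ V : Set X, IsOpen V ∧ x ∈ V ∧
      ∀ c d : ℕ, (e c ∈ V ∨ e d ∈ V) → s (some (c, d)) ∈ U := by
    intro U hU hxU
    have := (hopen (s ⁻¹' U)).1 (hU.preimage hs) (by simpa [hs0] using hxU)
    exact this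
  refine ⟨fun d => {z | ∃ c, e c = z ∧ s (some (c, d)) = e c}, ?_, ?_⟩
  · intro d
    obtain ⟨V, hV, hxV, h⟩ := key {e d}ᶜ isOpen_compl_singleton
      (fun h => hx ⟨d, (show x = e d from h).symm⟩)
    refine ⟨V, hV, hxV, ?_⟩
    rintro _ ⟨hzV, c, rfl⟩
    refine ⟨c, rfl, ?_⟩
    rcases hs1 c d with h' | h'
    · exact h'
    · exact absurd h' (h c d (Or.inl hzV))
  · intro U hU hxU
    obtain ⟨V, hV, hxV, h⟩ := key U hU hxU
    obtain ⟨_, hdV, d, rfl⟩ := mem_closure_iff.1 hcl V hV hxV
    refine ⟨d, ?_⟩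
    rintro _ ⟨c, rfl, hc⟩
    rw [← hc]
    exact h c d (Or.inr hdV)

/-- Every countable subspace of a `T₁` `C`-selective space is first countable. -/
theorem firstCountable_of_countable {X : Type u} [TopologicalSpace X] [T1Space X]
    (hX : CSelective X) (S : Set X) (hS : S.Countable) : FirstCountableTopology S := by
  classical
  refine ⟨fun ⟨x, hxS⟩ => ?_⟩
  by_cases hcl : x ∈ closure (S \ {x})
  · have hne : (S \ {x}).Nonempty := by
      rw [← closure_nonempty_iff]; exact ⟨x, hcl⟩
    obtain ⟨e, he⟩ := (hS.mono (sdiff_subset (t := {x}))).exists_eq_range hne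
    have hx : x ∉ range e := by
      rw [← he]; exact fun h => h.2 rfl
    rw [he] at hcl
    obtain ⟨B, hB1, hB2⟩ := firstCountable_aux hX e x hx hcl
    have hbas : (𝓝 (⟨x, hxS⟩ : S)).HasBasis (fun _ : ℕ => True)
        (fun d => {z : S | (z : X) = x ∨ (z : X) ∈ B d}) := by
      refine ⟨fun t => ?_⟩
      rw [mem_nhds_subtype]
      constructor
      · rintro ⟨u, hu, hut⟩
        obtain ⟨U, hUu, hU, hxU⟩ := mem_nhds_iff.1 hu
        obtain ⟨d, hd⟩ := hB2 U hU hxU
        refine ⟨d, trivial, ?_⟩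
        rintro z (hz | hz)
        · apply hut
          show (z : X) ∈ u
          rw [hz]; exact hUu hxU
        · exact hut (hUu (hd hz))
      · rintro ⟨d, -, hd⟩
        obtain ⟨V, hV, hxV, h⟩ := hB1 d
        refine ⟨V, hV.mem_nhds hxV, ?_⟩
        intro z hz
        apply hd
        by_cases hzx : (z : X) = x
        · exact Or.inl hzx
        · refine Or.inr (h ⟨hz, ?_⟩)
          rw [← he]
          exact ⟨z.2, hzx⟩
    exact hbas.isCountablyGenerated
  · have : 𝓝 (⟨x, hxS⟩ : S) = pure ⟨x, hxS⟩ := by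
      have hopen : IsOpen ({⟨x, hxS⟩} : Set S) := by
        refine ⟨(closure (S \ {x}))ᶜ, isClosed_closure.isOpen_compl, ?_⟩
        ext z
        constructor
        · intro hz
          by_contra hne
          exact hz (subset_closure ⟨z.2, fun h => hne (Subtype.ext h)⟩)
        · rintro rfl
          exact hcl
      exact (isOpen_singleton_iff_nhds_eq_pure _).1 hopen
    rw [this]
    infer_instance

end Pool.Agent.R594.Sel
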