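import Pool.Agent.R594.Sel.Michael
import Pool.Agent.R594.Sel.LemmaA

/-!
# Countably tight `C`-selective spaces are strongly `C`-selective
-/

open Set Filter Topology

namespace Pool.Agent.R594.Sel

universe u v

/-- The one-point modification of the closure of a l.s.c. map is l.s.c. -/
theorem lsc_modify {Y : Type u} {X : Type v} [TopologicalSpace Y] [TopologicalSpace X]
    [T1Space Y] (φ : Y → Set X) (hφ : LSC φ) (y : Y) (a : X) (ha : a ∈ φ y) :
    LSC (fun y' => {z | (y' = y → z = a) ∧ (y' ≠ y → z ∈ closure (φ y'))}) := by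
  classical
  intro U hU
  have hcl : ∀ y', (closure (φ y') ∩ U).Nonempty ↔ (φ y' ∩ U).Nonempty := by
    intro y'
    constructor
    · rintro ⟨z, hz1, hz2⟩
      obtain ⟨w, hw1, hw2⟩ := mem_closure_iff.1 hz1 U hU hz2
      exact ⟨w, hw2, hw1⟩
    · rintro ⟨z, hz1, hz2⟩
      exact ⟨z, subset_closure hz1, hz2⟩
  by_cases haU : a ∈ U
  · convert hφ U hU using 1
    ext y'
    by_cases hy : y' = y
    · subst hy
      constructor
      · intro _
        exact ⟨a, ha, haU⟩
      · intro _
        exact ⟨a, ⟨fun _ => rfl, fun h => absurd rfl h⟩, haU⟩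
    · show (_ ∩ U).Nonempty ↔ (_ ∩ U).Nonempty
      rw [← hcl]
      constructor
      · rintro ⟨z, hz1, hz2⟩
        exact ⟨z, hz1.2 hy, hz2⟩
      · rintro ⟨z, hz1, hz2⟩
        exact ⟨z, ⟨fun h => absurd h hy, fun _ => hz1⟩, hz2⟩
  · have : IsOpen ({y' | (φ y' ∩ U).Nonempty} ∩ {y}ᶜ) :=
      (hφ U hU).inter isOpen_compl_singleton
    convert this using 1
    ext y'
    by_cases hy : y' = y
    · subst hy
      constructor
      · rintro ⟨z, hz1, hz2⟩
        rw [hz1.1 rfl] at hz2
        exact absurd hz2 haU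
      · rintro ⟨-, h⟩
        exact absurd rfl h
    · constructor
      · rintro ⟨z, hz1, hz2⟩
        exact ⟨(hcl y').1 ⟨z, hz1.2 hy, hz2⟩, hy⟩
      · rintro ⟨h, -⟩
        obtain ⟨z, hz1, hz2⟩ := (hcl y').2 h
        exact ⟨z, ⟨fun h => absurd h hy, fun _ => hz1⟩, hz2⟩

/-- `X` is countably tight: every point of the closure of `A` is in the closure of a countable
subset of `A`. -/
def CountablyTight (X : Type v) [TopologicalSpace X] : Prop :=
  ∀ (A : Set X), ∀ x ∈ closure A, ∃ T ⊆ A, T.Countable ∧ x ∈ closure T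

theorem countablyTight_of_frechet (X : Type v) [TopologicalSpace X] [FrechetUrysohnSpace X] :
    CountablyTight X := by
  intro A x hx
  obtain ⟨u, hu, hlim⟩ := mem_closure_iff_seq_limit.1 hx
  refine ⟨range u, range_subset_iff.2 hu, countable_range u, ?_⟩
  exact mem_closure_of_tendsto hlim (Eventually.of_forall fun n => mem_range_self n)

/-- The closing-off argument. -/
theorem strongly_of_tight {X : Type v} [TopologicalSpace X] [T1Space X]
    (ht : CountablyTight X) (hX : CSelective X) : StronglyCSelective X := by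
  classical
  intro Y _ _ _ _ φ hne hlsc
  -- the selections through prescribed points
  have h1 : ∀ (y : Y) (a : X), a ∈ φ y → ∃ s : Y → X, Continuous s ∧ s y = a ∧
      ∀ y', y' ≠ y → s y' ∈ closure (φ y') := by
    intro y a ha
    have hne' : ∀ y' : Y, {z | (y' = y → z = a) ∧ (y' ≠ y → z ∈ closure (φ y'))}.Nonempty := by
      intro y'
      by_cases hy : y' = y
      · exact ⟨a, fun _ => rfl, fun h => absurd hy h⟩
      · obtain ⟨z, hz⟩ := hne y'
        exact ⟨z, fun h => absurd h hy, fun _ => subset_closure hz⟩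
    have hcl' : ∀ y' : Y, IsClosed {z | (y' = y → z = a) ∧ (y' ≠ y → z ∈ closure (φ y'))} := by
      intro y'
      by_cases hy : y' = y
      · have : {z | (y' = y → z = a) ∧ (y' ≠ y → z ∈ closure (φ y'))} = {a} := by
          ext z
          exact ⟨fun h => h.1 hy, fun h => ⟨fun _ => h, fun h' => absurd hy h'⟩⟩
        rw [this]
        exact isClosed_singleton
      · have : {z | (y' = y → z = a) ∧ (y' ≠ y → z ∈ closure (φ y'))} = closure (φ y') := by
          ext z
          exact ⟨fun h => h.2 hy, fun h => ⟨fun h' => absurd h' hy, fun _ => h⟩⟩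
        rw [this]
        exact isClosed_closure
    obtain ⟨s, hs, hsm⟩ := hX Y
      (fun y' => {z | (y' = y → z = a) ∧ (y' ≠ y → z ∈ closure (φ y'))}) hne' hcl'
      (lsc_modify φ hlsc y a ha)
    exact ⟨s, hs, (hsm y).1 rfl, fun y' hy' => (hsm y').2 hy'⟩
  choose! s hs1 hs2 hs3 using h1
  have h2 : ∀ (y : Y) (a : X) (y' : Y), ∃ T ⊆ φ y', T.Countable ∧
      (a ∈ φ y → y' ≠ y → s y a y' ∈ closure T) := by
    intro y a y'
    by_cases h : a ∈ φ y ∧ y' ≠ y
    · obtain ⟨T, hT1, hT2, hT3⟩ := ht (φ y') (s y a y') (hs3 y a h.1 y' h.2)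
      exact ⟨T, hT1, hT2, fun _ _ => hT3⟩
    · exact ⟨∅, empty_subset _, countable_empty, fun h1 h2 => absurd ⟨h1, h2⟩ h⟩
  choose T hT1 hT2 hT3 using h2
  choose p hp using hne
  -- closing off
  let F : Set X → Set X := fun A => A ∪ ⋃ y : Y, ⋃ y' : Y, ⋃ a ∈ A, T y a y'
  let A : ℕ → Set X := fun n => F^[n] (range p)
  have hA0 : A 0 = range p := rfl
  have hAs : ∀ n, A (n + 1) = F (A n) := fun n => Function.iterate_succ_apply' F n _
  have hAc : ∀ n, (A n).Countable := by
    intro n
    induction n with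
    | zero => rw [hA0]; exact countable_range p
    | succ n ih =>
      rw [hAs]
      refine ih.union (countable_iUnion fun y => countable_iUnion fun y' => ?_)
      exact ih.biUnion fun a _ => hT2 y a y'
  let B : Set X := ⋃ n, A n
  have hBc : B.Countable := countable_iUnion hAc
  have hpB : ∀ y, p y ∈ B := fun y => mem_iUnion.2 ⟨0, mem_range_self y⟩
  have hTB : ∀ y y' a, a ∈ B → T y a y' ⊆ B := by
    intro y y' a ha z hz
    obtain ⟨n, hn⟩ := mem_iUnion.1 ha
    refine mem_iUnion.2 ⟨n + 1, ?_⟩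
    rw [hAs]
    refine Or.inr ?_
    simp only [mem_iUnion]
    exact ⟨y, y', a, hn, hz⟩
  have hfc : FirstCountableTopology B := firstCountable_of_countable hX B hBc
  -- the restricted map
  have hlscB : LSC (fun y => (Subtype.val ⁻¹' (φ y) : Set B)) := by
    intro U hU
    obtain ⟨V, hV, rfl⟩ := hU
    rw [isOpen_iff_mem_nhds]
    rintro y ⟨⟨a, haB⟩, ha1, ha2⟩
    have ha1' : a ∈ φ y := ha1
    have ha2' : a ∈ V := ha2
    have hcont : s y a ⁻¹' V ∈ 𝓝 y := by
      apply (hV.preimage (hs1 y a ha1')).mem_nhds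
      show s y a y ∈ V
      rw [hs2 y a ha1']
      exact ha2'
    filter_upwards [hcont] with y' hy'
    by_cases hyy : y' = y
    · subst hyy
      exact ⟨⟨a, haB⟩, ha1, ha2⟩
    · obtain ⟨z, hz1, hz2⟩ := mem_closure_iff.1 (hT3 y a y' ha1' hyy) V hV hy'
      exact ⟨⟨z, hTB y y' a haB hz2⟩, hT1 y a y' hz2, hz1⟩
  obtain ⟨f, hf1, hf2⟩ := michael (Y := Y) (A := B) (fun y => (Subtype.val ⁻¹' (φ y) : Set B))
    (fun y => ⟨⟨p y, hpB y⟩, hp y⟩) hlscB
  exact ⟨fun y => (f y : X), continuous_subtype_val.comp hf1, fun y => hf2 y⟩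

end Pool.Agent.R594.Sel
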