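import Pool.Agent.R594.Sel.Defs

/-!
# Michael's theorem: first countable spaces are strongly `C`-selective
-/

open Set Filter Topology

namespace Pool.Agent.R594.Sel

universe u v

theorem michael {Y : Type u} {A : Type v} [TopologicalSpace Y] [TopologicalSpace A]
    [T1Space Y] [RegularSpace Y] [Countable Y] [FirstCountableTopology A] :
    StronglySelective Y A := by
  classical
  intro φ hne hlsc
  rcases finite_or_infinite Y with hfin | hinf
  · choose f hf using hne
    haveI : DiscreteTopology Y := Finite.instDiscreteTopology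
    exact ⟨f, continuous_of_discreteTopology, hf⟩
  obtain ⟨e⟩ : Nonempty (ℕ ≃ Y) := by
    haveI := Classical.choice (nonempty_denumerable Y)
    exact ⟨(Denumerable.eqv Y).symm⟩
  -- decreasing open bases
  have hbase : ∀ a : A, ∃ U : ℕ → Set A, (∀ k, a ∈ U k ∧ IsOpen (U k)) ∧
      (𝓝 a).HasAntitoneBasis U := by
    intro a
    obtain ⟨x, hx1, hx2⟩ := (nhds_basis_opens a).exists_antitone_subbasis
    exact ⟨x, hx1, hx2⟩
  choose U hU1 hU2 using hbase
  -- the recursion
  let P : ℕ → (ℕ → A) × (Y → Set A) → Prop := fun t s =>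
    (∀ i < t, s.1 i ∈ φ (e i) ∩ s.2 (e i)) ∧
    (∀ y, IsOpen (s.2 y) ∧ (φ y ∩ s.2 y).Nonempty) ∧
    (∀ y, ∀ᶠ y' in 𝓝 y, s.2 y ⊆ s.2 y')
  let R : ℕ → (ℕ → A) × (Y → Set A) → (ℕ → A) × (Y → Set A) → Prop := fun t s s' =>
    (∀ i < t, s'.1 i = s.1 i) ∧ (∀ y, s'.2 y ⊆ s.2 y) ∧ (s'.1 t ∈ s.2 (e t)) ∧
    (∀ᶠ y in 𝓝 (e t.unpair.1), s'.2 y ⊆ U (s'.1 t.unpair.1) t.unpair.2)
  have h0 : ∃ s, P 0 s := by
    obtain ⟨a0, -⟩ := hne (e 0)
    refine ⟨(fun _ => a0, fun _ => univ), ?_, ?_, ?_⟩
    · intro i hi; exact absurd hi (by omega)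
    · intro y
      refine ⟨isOpen_univ, ?_⟩
      simpa using hne y
    · intro y
      exact Eventually.of_forall fun _ => subset_rfl
  have hs : ∀ n s, P n s → ∃ s', P (n + 1) s' ∧ R n s s' := by
    rintro t ⟨a, G⟩ ⟨h1, h2, h3⟩
    simp only at h1 h2 h3
    obtain ⟨b, hb⟩ := (h2 (e t)).2
    set i := t.unpair.1 with hi
    set k := t.unpair.2 with hk
    have hit : i ≤ t := Nat.unpair_left_le t
    let a' : ℕ → A := Function.update a t b
    have ha'lt : ∀ j < t, a' j = a j := fun j hj => Function.update_of_ne (by omega) _ _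
    have ha't : a' t = b := Function.update_self _ _ _
    have ha' : ∀ j ≤ t, a' j ∈ φ (e j) ∩ G (e j) := by
      intro j hj
      rcases hj.lt_or_eq with h | h
      · rw [ha'lt j h]; exact h1 j h
      · subst h; rw [ha't]; exact hb
    -- the closed neighbourhood
    have hN1 : {y | (φ y ∩ (G (e i) ∩ U (a' i) k)).Nonempty} ∈ 𝓝 (e i) := by
      apply (hlsc _ ((h2 (e i)).1.inter (hU1 (a' i) k).2)).mem_nhds
      exact ⟨a' i, (ha' i hit).1, (ha' i hit).2, (hU1 (a' i) k).1⟩
    have hN2 : {y | G (e i) ⊆ G y} ∈ 𝓝 (e i) := h3 (e i)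
    have hN3 : ((e '' {j | j ≤ t ∧ j ≠ i})ᶜ : Set Y) ∈ 𝓝 (e i) := by
      apply IsOpen.mem_nhds
      · apply (Set.Finite.isClosed _).isOpen_compl
        apply Set.Finite.image
        exact (Set.finite_Iic t).subset fun j hj => hj.1
      · rintro ⟨j, ⟨-, hj⟩, hje⟩
        exact hj (e.injective hje)
    obtain ⟨C, hC, hCcl, hCsub⟩ := exists_mem_nhds_isClosed_subset
      (inter_mem (inter_mem hN1 hN2) hN3)
    let G' : Y → Set A := fun y => if y ∈ C then G y ∩ U (a' i) k else G y
    have hG'in : ∀ y ∈ C, G' y = G y ∩ U (a' i) k := fun y hy => if_pos hy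
    have hG'out : ∀ y, y ∉ C → G' y = G y := fun y hy => if_neg hy
    have hG'sub : ∀ y, G' y ⊆ G y := by
      intro y
      by_cases hy : y ∈ C
      · rw [hG'in y hy]; exact inter_subset_left
      · rw [hG'out y hy]
    refine ⟨(a', G'), ⟨?_, ?_, ?_⟩, ?_, ?_, ?_, ?_⟩
    · intro j hj
      have hj' : j ≤ t := by omega
      refine ⟨(ha' j hj').1, ?_⟩
      show a' j ∈ G' (e j)
      by_cases hji : j = i
      · have hC' : e i ∈ C := mem_of_mem_nhds hC
        rw [hji, hG'in _ hC']
        exact ⟨(ha' i hit).2, (hU1 (a' i) k).1⟩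
      · have : e j ∉ C := fun h => (hCsub h).2 ⟨j, ⟨hj', hji⟩, rfl⟩
        rw [hG'out _ this]
        exact (ha' j hj').2
    · intro y
      show IsOpen (G' y) ∧ (φ y ∩ G' y).Nonempty
      by_cases hy : y ∈ C
      · rw [hG'in y hy]
        refine ⟨(h2 y).1.inter (hU1 (a' i) k).2, ?_⟩
        obtain ⟨⟨⟨z, hz1, hz2, hz3⟩, hy2⟩, -⟩ := hCsub hy
        exact ⟨z, hz1, hy2 hz2, hz3⟩
      · rw [hG'out y hy]
        exact h2 y
    · intro y
      show ∀ᶠ y' in 𝓝 y, G' y ⊆ G' y'
      by_cases hy : y ∈ C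
      · filter_upwards [h3 y] with y' hy'
        rw [hG'in y hy]
        by_cases hy'' : y' ∈ C
        · rw [hG'in y' hy'']
          exact inter_subset_inter_left _ hy'
        · rw [hG'out y' hy'']
          exact inter_subset_left.trans hy'
      · filter_upwards [h3 y, hCcl.isOpen_compl.mem_nhds hy] with y' hy' hy''
        rw [hG'out y hy, hG'out y' hy'']
        exact hy'
    · exact ha'lt
    · exact hG'sub
    · show a' t ∈ G (e t)
      rw [ha't]; exact hb.2
    · show ∀ᶠ y in 𝓝 (e i), G' y ⊆ U (a' i) k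
      filter_upwards [hC] with y hy
      rw [hG'in y hy]
      exact inter_subset_right
  obtain ⟨f, hfP, hfR⟩ := exists_chain P R h0 hs
  let s : ℕ → A := fun m => (f (m + 1)).1 m
  have hstab : ∀ m n, m < n → (f n).1 m = s m := by
    intro m n hmn
    induction n with
    | zero => omega
    | succ n ih =>
      rcases Nat.lt_or_ge m n with h | h
      · rw [← ih h]
        exact (hfR n).1 m h
      · have : m = n := by omega
        subst this; rfl
  have hdec : ∀ n m, n ≤ m → ∀ y, (f m).2 y ⊆ (f n).2 y := by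
    intro n m hnm
    induction hnm with
    | refl => intro y; exact subset_rfl
    | @step m _ ih => intro y; exact ((hfR m).2.1 y).trans (ih y)
  have hmem : ∀ m n, s m ∈ (f n).2 (e m) := by
    intro m n
    rcases Nat.lt_or_ge m n with h | h
    · rw [← hstab m n h]
      exact ((hfP n).1 m h).2
    · exact hdec n m h _ (hfR m).2.2.1
  refine ⟨fun y => s (e.symm y), ?_, ?_⟩
  · rw [continuous_iff_continuousAt]
    intro y
    obtain ⟨i, rfl⟩ := e.surjective y
    rw [ContinuousAt, (hU2 _).1.tendsto_right_iff]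
    intro k _
    have := (hfR (Nat.pair i k)).2.2.2
    rw [Nat.unpair_pair] at this
    have hpair : i < Nat.pair i k + 1 := Nat.lt_succ_of_le (Nat.left_le_pair i k)
    simp only [hstab i _ hpair] at this
    filter_upwards [this] with y hy
    simp only [Equiv.symm_apply_apply]
    obtain ⟨m, rfl⟩ := e.surjective y
    rw [Equiv.symm_apply_apply]
    exact hy (hmem m _)
  · intro y
    obtain ⟨m, rfl⟩ := e.surjective y
    show s (e.symm (e m)) ∈ φ (e m)
    rw [Equiv.symm_apply_apply]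
    exact ((hfP (m + 1)).1 m (by omega)).1

end Pool.Agent.R594.Sel
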