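import Pool.Agent.R594.Sel.Dich
import Pool.Agent.R594.Sel.LemmaA
import Pool.Agent.R594.Star.CH

/-!
# Under CH there is a countable strongly `ℚ`-selective space which is not `C`-selective
-/

open Set Filter Topology Cardinal

namespace Pool.Agent.R594.Sel

open Pool.Agent.Helper126.Sus.Forc Pool.Agent.R594.Star

/-- Meeting `ω₁` dense sets of a countably closed preorder. -/
theorem exists_generic {P : Type} [Preorder P] [Nonempty P]
    (hlow : ∀ q : ℕ → P, Antitone q → ∃ r, ∀ n, r ≤ q n) (D : K1 → Set P)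
    (hD : ∀ α p, ∃ q ≤ p, q ∈ D α) : ∃ p : K1 → P, Antitone p ∧ ∀ α, p α ∈ D α := by
  classical
  let F : ∀ α : K1, (∀ β : K1, β < α → P) → P := fun α rec =>
    if h : ∃ q, (∀ β (hβ : β < α), q ≤ rec β hβ) ∧ q ∈ D α then h.choose
    else Classical.arbitrary P
  let p : K1 → P := (wellFounded_lt (α := K1)).fix F
  have hp : ∀ α, p α = F α (fun β _ => p β) := fun α => (wellFounded_lt (α := K1)).fix_eq F α
  have key : ∀ α, (∀ β < α, p α ≤ p β) ∧ p α ∈ D α := by
    intro α
    induction α using WellFoundedLT.induction with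
    | _ α ih =>
      have hex : ∃ q, (∀ β (_ : β < α), q ≤ p β) ∧ q ∈ D α := by
        by_cases hne : (Iio α).Nonempty
        · obtain ⟨u, hu⟩ := (countable_Iio_K1 α).exists_eq_range hne
          have hanti : ∀ β γ, β ≤ γ → γ < α → p γ ≤ p β := by
            intro β γ hβγ hγ
            rcases hβγ.lt_or_eq with h | h
            · exact (ih γ hγ).1 β h
            · rw [h]
          let v : ℕ → K1 := fun n => (Finset.range (n + 1)).sup' ⟨0, by simp⟩ u
          have huα : ∀ n, u n < α := fun n => by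
            have : u n ∈ Iio α := by rw [hu]; exact mem_range_self n
            exact this
          have hvα : ∀ n, v n < α := fun n =>
            (Finset.sup'_lt_iff _).2 fun i _ => huα i
          have hvmono : Monotone v := by
            intro a b hab
            refine Finset.sup'_le _ _ fun i hi => ?_
            refine Finset.le_sup' u (Finset.mem_range.2 ?_)
            have := Finset.mem_range.1 hi
            omega
          obtain ⟨r, hr⟩ := hlow (fun n => p (v n)) (fun a b hab => hanti _ _ (hvmono hab) (hvα b))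
          obtain ⟨q, hq, hqD⟩ := hD α r
          refine ⟨q, fun β hβ => ?_, hqD⟩
          have : β ∈ range u := by rw [← hu]; exact hβ
          obtain ⟨n, rfl⟩ := this
          exact hq.trans ((hr n).trans (hanti _ _ (Finset.le_sup' u (by simp)) (hvα n)))
        · obtain ⟨q, -, hq⟩ := hD α (Classical.arbitrary P)
          exact ⟨q, fun β hβ => absurd ⟨β, hβ⟩ hne, hq⟩
      have hpα : p α = hex.choose := by
        rw [hp α]
        exact dif_pos hex
      rw [hpα]
      exact hex.choose_spec
  refine ⟨p, fun β γ hβγ => ?_, fun α => (key α).2⟩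
  rcases hβγ.lt_or_eq with h | h
  · exact (key γ).1 β h
  · rw [h]

/-- the topology on `Option (ℕ × ℕ)`: the neighbourhoods of `none` are given by the filter -/
@[reducible] def gtop (p : K1 → Cnd) (hp : Antitone p) : TopologicalSpace (Option Om) where
  IsOpen W := none ∈ W → ∃ α n, ∀ x ∈ (p α).F n, some x ∈ W
  isOpen_univ := fun _ => by
    obtain ⟨b, _⟩ := exists_gt_K1 (Set.countable_empty)
    exact ⟨b, 0, fun _ _ => mem_univ _⟩
  isOpen_inter := by
    intro s t hs ht h
    obtain ⟨α, n, h1⟩ := hs h.1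
    obtain ⟨β, m, h2⟩ := ht h.2
    obtain ⟨n', hn'⟩ := (hp (le_max_left α β)).1 n
    obtain ⟨m', hm'⟩ := (hp (le_max_right α β)).1 m
    refine ⟨max α β, max n' m', fun x hx => ⟨h1 x (hn' ?_), h2 x (hm' ?_)⟩⟩
    · exact (p _).antiF (le_max_left _ _) hx
    · exact (p _).antiF (le_max_right _ _) hx
  isOpen_sUnion := by
    intro s hs h
    obtain ⟨t, ht, hnt⟩ := h
    obtain ⟨α, n, h1⟩ := hs t ht hnt
    exact ⟨α, n, fun x hx => ⟨t, ht, h1 x hx⟩⟩

/-- the dense sets which make the filter not countably generated -/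
def DG (G : ℕ → Set Om) : Set Cnd :=
  {q | (∀ r ≤ q, ∃ n, ∀ m, ¬ r.F m ⊆ G n) ∨ (∃ n, ∀ k, ¬ G k ⊆ q.F n)}

theorem dense_DG (G : ℕ → Set Om) (p : Cnd) : ∃ q ≤ p, q ∈ DG G := by
  by_cases h : ∃ r ≤ p, ∀ n, ∃ m, r.F m ⊆ G n
  · obtain ⟨r, hr, h⟩ := h
    obtain ⟨q, hq, h'⟩ := r.enlarge
    refine ⟨q, hq.trans hr, Or.inr ⟨0, fun k hk => ?_⟩⟩
    obtain ⟨m, hm⟩ := h k
    exact h' m (hm.trans hk)
  · push Not at h
    exact ⟨p, le_rfl, Or.inl h⟩

theorem clopen_ball (x : ℚ) {r : ℝ} (hr : Irrational r) : IsClosed (Metric.ball x r) := by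
  have : Metric.ball x r = Metric.closedBall x r := by
    ext y
    rw [Metric.mem_ball, Metric.mem_closedBall]
    constructor
    · exact le_of_lt
    · intro h
      refine lt_of_le_of_ne h fun h' => ?_
      rw [Rat.dist_eq] at h'
      apply hr
      refine ⟨|y - x|, ?_⟩
      rw [← h']
      push_cast
      rfl
  rw [this]
  exact Metric.isClosed_closedBall

theorem exists_radius (x : ℚ) (S : Set ℚ) (hS : S ∈ 𝓝 x) (j : ℕ) :
    ∃ r : ℝ, Irrational r ∧ 0 < r ∧ r ≤ 1 / ((j : ℝ) + 1) ∧ Metric.ball x r ⊆ S := by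
  obtain ⟨ε, hε, hεS⟩ := Metric.mem_nhds_iff.1 hS
  have hpos : (0 : ℝ) < min ε (1 / ((j : ℝ) + 1)) := lt_min hε (by positivity)
  obtain ⟨r, hr, h0, h1⟩ := exists_irrational_btwn hpos
  exact ⟨r, hr, h0, (h1.trans_le (min_le_right _ _)).le,
    (Metric.ball_subset_ball (h1.trans_le (min_le_left _ _)).le).trans hεS⟩

theorem exists_space_of_generic (p : K1 → Cnd) (hp : Antitone p)
    (h1 : ∀ (K : Set ℚ) (I : ℚ → Set Om), ∃ α, Killed (p α) K I ∨ Solved (p α) K I)
    (h2 : ∀ G : ℕ → Set Om, ∃ α, p α ∈ DG G) :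
    ∃ (X : Type) (_ : TopologicalSpace X), T1Space X ∧ RegularSpace X ∧ Countable X ∧
      StronglySelective ℚ X ∧ ¬ CSelective X := by
  classical
  letI ttop : TopologicalSpace (Option Om) := gtop p hp
  have hopen : ∀ W : Set (Option Om), IsOpen W ↔
    (none ∈ W → ∃ α n, ∀ x ∈ (p α).F n, some x ∈ W) := fun W => Iff.rfl
  have hsome : ∀ W : Set (Option Om), none ∉ W → IsOpen W := by
    intro W hW
    rw [hopen]
    exact fun h => absurd h hW
  have hFopen : ∀ α n, IsOpen ({z : Option Om | ∀ x, z = some x → x ∈ (p α).F n}) := by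
    intro α n
    rw [hopen]
    intro _
    refine ⟨α, n, fun x hx y hy => ?_⟩
    rw [← Option.some.inj hy]
    exact hx
  obtain ⟨α0, -⟩ := exists_gt_K1 (Set.countable_empty)
  have hT1 : T1Space (Option Om) := by
    refine ⟨fun z => ⟨?_⟩⟩
    rw [hopen]
    intro hz
    cases z with
    | none => exact absurd rfl hz
    | some x =>
      refine ⟨α0, x.1 + 1, fun y hy h => ?_⟩
      have h3 : y = x := Option.some.inj h
      have := (p α0).colF _ y hy
      rw [h3] at this
      omega
  have hreg : RegularSpace (Option Om) := by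
    apply RegularSpace.of_exists_mem_nhds_isClosed_subset
    intro z s hs
    obtain ⟨t, hts, ht, hzt⟩ := mem_nhds_iff.1 hs
    cases z with
    | some x =>
      refine ⟨{some x}, ?_, isClosed_singleton, fun z hz => ?_⟩
      · have hq : IsOpen ({some x} : Set (Option Om)) :=
          hsome _ (fun h => by simp at h)
        exact hq.mem_nhds rfl
      · rw [show z = some x from hz]
        exact hts hzt
    | none =>
      exact ⟨t, ht.mem_nhds hzt, ⟨hsome _ fun h => h hzt⟩, hts⟩
  refine ⟨Option Om, ttop, hT1, hreg, inferInstance, ?_, ?_⟩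
  · -- strongly ℚ-selective
    intro φ hne hlsc
    let K : Set ℚ := {q | none ∈ φ q}
    let I : ℚ → Set Om := fun q => {x | some x ∈ φ q}
    have hI : ∀ q, q ∉ K → (I q).Nonempty := by
      intro q hq
      obtain ⟨z, hz⟩ := hne q
      cases z with
      | none => exact absurd hz hq
      | some x => exact ⟨x, hz⟩
    obtain ⟨α, hα⟩ := h1 K I
    rcases hα with ⟨k, hk, n, hkill⟩ | ⟨T, ⟨m, hTm⟩, hT⟩
    · exfalso
      obtain ⟨d, hd, hdK, hdI⟩ := hkill _ ((hlsc _ (hFopen α n)).mem_nhds
        (show k ∈ {y | (φ y ∩ _).Nonempty} from ⟨none, hk, fun x hx => by simp at hx⟩))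
      obtain ⟨z, hz1, hz2⟩ := hd
      cases z with
      | none => exact hdK hz1
      | some x =>
        have : x ∈ I d ∩ (p α).F n := ⟨hz1, hz2 x rfl⟩
        rw [hdI] at this
        exact this
    let e : ℕ ≃ ℚ := (Denumerable.eqv ℚ).symm
    let N : ℚ → ℕ := fun q =>
      Nat.findGreatest (fun n => (I q ∩ (p α).F n ∩ T).Nonempty) (e.symm q)
    have ha : ∀ q, ∃ x : Om, (q ∉ K → x ∈ I q) ∧
        ((I q ∩ (p α).F 0 ∩ T).Nonempty → x ∈ I q ∩ (p α).F (N q) ∩ T) := by
      intro q
      by_cases h0 : (I q ∩ (p α).F 0 ∩ T).Nonempty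
      · obtain ⟨x, hx⟩ := Nat.findGreatest_spec
          (P := fun n => (I q ∩ (p α).F n ∩ T).Nonempty) (Nat.zero_le (e.symm q)) h0
        exact ⟨x, fun _ => hx.1.1, fun _ => hx⟩
      · by_cases hq : q ∈ K
        · exact ⟨(0, 0), fun h => absurd hq h, fun h => absurd h h0⟩
        · obtain ⟨x, hx⟩ := hI q hq
          exact ⟨x, fun _ => hx, fun h => absurd h h0⟩
    choose a ha1 ha2 using ha
    have hconv : ∀ k ∈ K, ∀ β n, ∀ᶠ d in 𝓝 k, d ∉ K → a d ∈ (p β).F n := by
      intro k hk β n
      obtain ⟨n', hn'⟩ := (hp (le_max_right α β)).1 n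
      obtain ⟨l, hl⟩ := (hp (le_max_left α β)).2.2 n' m
      have hfin : ((e '' {s | s < l ∧ e s ≠ k})ᶜ : Set ℚ) ∈ 𝓝 k := by
        apply IsOpen.mem_nhds
        · apply (Set.Finite.isClosed _).isOpen_compl
          apply Set.Finite.image
          exact (Set.finite_Iio _).subset fun j hj => hj.1
        · rintro ⟨j, ⟨-, hj⟩, hje⟩
          exact hj hje
      filter_upwards [hT k hk l, hT k hk 0, hfin] with d hd hd0 hd' hdK
      have hcode : l ≤ e.symm d := by
        by_contra hcon
        refine hd' ⟨e.symm d, ⟨not_le.1 hcon, ?_⟩, e.apply_symm_apply d⟩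
        rw [e.apply_symm_apply]
        rintro rfl
        exact hdK hk
      have hN : l ≤ N d :=
        Nat.le_findGreatest (P := fun n => (I d ∩ (p α).F n ∩ T).Nonempty) hcode (hd hdK)
      have had := ha2 d (hd0 hdK)
      exact hn' (hl ⟨(p α).antiF hN had.1.2, hTm had.2⟩)
    -- the radii
    have hr : ∀ j : ℕ, ∃ r : ℝ, Irrational r ∧ 0 < r ∧ r ≤ 1 / ((j : ℝ) + 1) ∧
        (e j ∉ K → ∀ x ∈ Metric.ball (e j) r, some (a (e j)) ∈ φ x) := by
      intro j
      by_cases hj : e j ∈ K
      · obtain ⟨r, hr1, hr2, hr3, -⟩ := exists_radius (e j) univ univ_mem j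
        exact ⟨r, hr1, hr2, hr3, fun h => absurd hj h⟩
      · have hop : IsOpen ({some (a (e j))} : Set (Option Om)) :=
          hsome _ (fun h => by simp at h)
        obtain ⟨r, hr1, hr2, hr3, hr4⟩ := exists_radius (e j) _
          ((hlsc _ hop).mem_nhds (show e j ∈ {y | (φ y ∩ _).Nonempty} from
            ⟨_, ha1 (e j) hj, rfl⟩)) j
        refine ⟨r, hr1, hr2, hr3, fun _ x hx => ?_⟩
        obtain ⟨z, hz1, hz2⟩ := hr4 hx
        rw [show z = some (a (e j)) from hz2] at hz1
        exact hz1
    choose r hr1 hr2 hr3 hr4 using hr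
    let s : ℚ → Option Om := fun x =>
      if h : ∃ j, e j ∉ K ∧ x ∈ Metric.ball (e j) (r j) then some (a (e (Nat.find h))) else none
    have hK : ∀ x, (¬ ∃ j, e j ∉ K ∧ x ∈ Metric.ball (e j) (r j)) → x ∈ K := by
      intro x hx
      by_contra hxK
      refine hx ⟨e.symm x, ?_, ?_⟩
      · rw [e.apply_symm_apply]; exact hxK
      · rw [e.apply_symm_apply]; exact Metric.mem_ball_self (hr2 _)
    have hout : ∀ (x : ℚ) (j : ℕ), (∀ i < j, e i ∉ K → x ∉ Metric.ball (e i) (r i)) →
        ∀ᶠ y in 𝓝 x, ∀ i < j, e i ∉ K → y ∉ Metric.ball (e i) (r i) := by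
      intro x j hx
      have : ∀ i ∈ Finset.range j, ∀ᶠ y in 𝓝 x, e i ∉ K → y ∉ Metric.ball (e i) (r i) := by
        intro i hi
        by_cases hiK : e i ∈ K
        · exact Eventually.of_forall fun y h => absurd hiK h
        · filter_upwards [(clopen_ball (e i) (hr1 i)).isOpen_compl.mem_nhds
            (hx i (Finset.mem_range.1 hi) hiK)] with y hy _
          exact hy
      have := (Filter.eventually_all_finset (Finset.range j)).2 this
      filter_upwards [this] with y hy i hi
      exact hy i (Finset.mem_range.2 hi)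
    refine ⟨s, ?_, ?_⟩
    · rw [continuous_iff_continuousAt]
      intro x
      by_cases h : ∃ j, e j ∉ K ∧ x ∈ Metric.ball (e j) (r j)
      · -- locally constant
        have hloc : ∀ᶠ y in 𝓝 x, some (a (e (Nat.find h))) = s y := by
          filter_upwards [Metric.isOpen_ball.mem_nhds (Nat.find_spec h).2,
            hout x (Nat.find h) (fun i hi hiK hx => Nat.find_min h hi ⟨hiK, hx⟩)] with y hy1 hy2
          have hy : ∃ j, e j ∉ K ∧ y ∈ Metric.ball (e j) (r j) :=
            ⟨_, (Nat.find_spec h).1, hy1⟩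
          have hyj : Nat.find hy = Nat.find h := by
            rw [Nat.find_eq_iff]
            exact ⟨⟨(Nat.find_spec h).1, hy1⟩, fun i hi hh => hy2 i hi hh.1 hh.2⟩
          show _ = dite _ _ _
          rw [dif_pos hy, hyj]
        exact continuousAt_const.congr hloc
      · have hsx : s x = none := dif_neg h
        have hxK := hK x h
        rw [ContinuousAt, hsx]
        intro U hU
        obtain ⟨W, hWU, hW, hnW⟩ := mem_nhds_iff.1 hU
        obtain ⟨β, n, hβ⟩ := (hopen W).1 hW hnW
        obtain ⟨ε, hε, hεW⟩ := Metric.mem_nhds_iff.1 (hconv x hxK β n)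
        obtain ⟨j1, hj1⟩ := exists_nat_one_div_lt (half_pos hε)
        rw [mem_map]
        filter_upwards [Metric.ball_mem_nhds x (half_pos hε),
          hout x j1 (fun i _ hiK hx => h ⟨i, hiK, hx⟩)] with y hy1 hy2
        apply hWU
        by_cases hy : ∃ j, e j ∉ K ∧ y ∈ Metric.ball (e j) (r j)
        · have hsy : s y = some (a (e (Nat.find hy))) := dif_pos hy
          rw [hsy]
          obtain ⟨hj2, hj3⟩ := Nat.find_spec hy
          have hj4 : j1 ≤ Nat.find hy := by
            by_contra hcon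
            exact hy2 _ (not_le.1 hcon) hj2 hj3
          apply hβ
          refine hεW ?_ hj2
          rw [Metric.mem_ball] at hy1 hj3 ⊢
          have h5 : r (Nat.find hy) ≤ 1 / ((j1 : ℝ) + 1) := by
            refine (hr3 _).trans ?_
            apply one_div_le_one_div_of_le
            · positivity
            · have : (j1 : ℝ) ≤ (Nat.find hy : ℝ) := by exact_mod_cast hj4
              linarith
          calc dist (e (Nat.find hy)) x ≤ dist (e (Nat.find hy)) y + dist y x :=
                dist_triangle _ _ _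
            _ = dist y (e (Nat.find hy)) + dist y x := by rw [dist_comm (e (Nat.find hy)) y]
            _ < ε := by linarith
        · have hsy : s y = none := dif_neg hy
          rw [hsy]
          exact hnW
    · intro x
      by_cases h : ∃ j, e j ∉ K ∧ x ∈ Metric.ball (e j) (r j)
      · have hsx : s x = some (a (e (Nat.find h))) := dif_pos h
        rw [hsx]
        exact hr4 _ (Nat.find_spec h).1 x (Nat.find_spec h).2
      · have hsx : s x = none := dif_neg h
        rw [hsx]
        exact hK x h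
  · -- not C-selective
    intro hC
    haveI := firstCountable_of_countable hC univ countable_univ
    have hcg : (𝓝 (none : Option Om)).IsCountablyGenerated := by
      have : 𝓝 (none : Option Om) =
          Filter.map Subtype.val (𝓝 (⟨none, trivial⟩ : ↥(univ : Set (Option Om)))) := by
        rw [map_nhds_subtype_coe_eq_nhds]
        exact Eventually.of_forall fun _ => trivial
      rw [this]
      infer_instance
    obtain ⟨x, hx⟩ := (𝓝 (none : Option Om)).exists_antitone_basis
    let G : ℕ → Set Om := fun n => {y | some y ∈ x n}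
    have hG : ∀ n, ∃ β m, (p β).F m ⊆ G n := by
      intro n
      obtain ⟨W, hWU, hW, hnW⟩ := mem_nhds_iff.1 (hx.1.mem_of_mem (i := n) trivial)
      obtain ⟨β, m, hβ⟩ := (hopen W).1 hW hnW
      exact ⟨β, m, fun y hy => hWU (hβ y hy)⟩
    choose β m hβ using hG
    obtain ⟨α, hα⟩ := h2 G
    rcases hα with hα | ⟨n, hn⟩
    · obtain ⟨γ, hγ⟩ := exists_gt_K1 ((countable_range β).union (countable_singleton α))
      obtain ⟨n, hn⟩ := hα (p γ) (hp (hγ α (Or.inr rfl)).le)
      obtain ⟨m', hm'⟩ := (hp (hγ (β n) (Or.inl ⟨n, rfl⟩)).le).1 (m n)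
      exact hn m' (hm'.trans (hβ n))
    · have hU : {z : Option Om | ∀ x, z = some x → x ∈ (p α).F n} ∈ 𝓝 (none : Option Om) :=
        (hFopen α n).mem_nhds (fun x hx => by simp at hx)
      obtain ⟨k, -, hk⟩ := hx.1.mem_iff.1 hU
      exact hn k fun y hy => hk hy y rfl

/-- Under CH there is a countable regular strongly `ℚ`-selective space which is not
`C`-selective. -/
theorem exists_space (hCH : (𝔠 : Cardinal.{0}) = ℵ₁) :
    ∃ (X : Type) (_ : TopologicalSpace X), T1Space X ∧ RegularSpace X ∧ Countable X ∧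
      StronglySelective ℚ X ∧ ¬ CSelective X := by
  classical
  haveI := Cnd.nonempty
  let τ : Type := (Set ℚ × (ℚ → Set Om)) ⊕ (ℕ → Set Om)
  have hcard : #τ = 𝔠 := by
    have h1 : #(Set ℚ) = 𝔠 := by
      rw [mk_set, mk_eq_aleph0 ℚ, two_power_aleph0]
    have h2 : #(ℚ → Set Om) = 𝔠 := by
      rw [← power_def, mk_set, mk_eq_aleph0 ℚ, mk_eq_aleph0 Om, two_power_aleph0,
        continuum_power_aleph0]
    have h3 : #(ℕ → Set Om) = 𝔠 := by
      rw [← power_def, mk_set, mk_eq_aleph0 ℕ, mk_eq_aleph0 Om, two_power_aleph0,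
        continuum_power_aleph0]
    show #((Set ℚ × (ℚ → Set Om)) ⊕ (ℕ → Set Om)) = 𝔠
    rw [mk_sum, mk_prod]
    simp only [lift_id, h1, h2, h3, continuum_mul_self, continuum_add_self]
  obtain ⟨e⟩ := Cardinal.eq.1 (mk_K1.trans (hCH.symm.trans hcard.symm))
  let D : τ → Set Cnd := fun t => match t with
    | Sum.inl (K, I) => {q | Killed q K I ∨ Solved q K I}
    | Sum.inr G => DG G
  obtain ⟨p, hp, hpD⟩ := exists_generic (P := Cnd) Cnd.exists_lower (fun α => D (e α)) (by
    intro α q
    show ∃ q' ≤ q, q' ∈ D (e α)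
    rcases e α with ⟨K, I⟩ | G
    · exact dich q K I
    · exact dense_DG G q)
  refine exists_space_of_generic p hp (fun K I => ?_) (fun G => ?_)
  · have := hpD (e.symm (Sum.inl (K, I)))
    rw [Equiv.apply_symm_apply] at this
    exact ⟨_, this⟩
  · have := hpD (e.symm (Sum.inr G))
    rw [Equiv.apply_symm_apply] at this
    exact ⟨_, this⟩

end Pool.Agent.R594.Sel
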